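import Pool.Agent.TH812.SF.Inst
import Pool.Agent.H297R2.ExpIndep

/-!
# Squarefree relations: exponentials of algebraic numbers and logarithms
-/

set_option autoImplicit false

namespace Pool.Agent.TH812.SF

open Module Finset Pool.Agent.H301R2.SSE

open Classical in
/-- almost all tuples are good -/
theorem main_good (k N g : ℕ) :
    ∃ K : ℕ, ∀ (n : ℕ) (l : Fin n → ℂ), (∀ i, IsAlgebraic ℚ (Complex.exp (l i))) →
      LinearIndependent ℚ l → ∀ (γ : Fin g → ℂ) (U : Submodule QB ℂ), FiniteDimensional QB U →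
      finrank QB U ≤ N → (1 : ℂ) ∈ U →
      (Finset.univ.filter fun s : Fin k → Fin n =>
        ¬ Good U (Lt ⊔ Submodule.span QB (Set.range γ)) l s).card * n ≤ K * n ^ k := by
  refine ⟨cst N g k, fun n l halg hli γ U hUf hUN hU1 => ?_⟩
  have hGf : FiniteDimensional QB (Submodule.span QB (Set.range γ)) :=
    FiniteDimensional.span_of_finite QB (Set.finite_range γ)
  have h1 := dens hyp_Lt Lt_one (Fin k) N g k (Fintype.card_fin k) (Fin n) l
    (fun i => Lt_log (halg i)) (ind1_of_logs l halg hli) U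
    (Submodule.span QB (Set.range γ)) hUf hGf hU1 hUN (finrank_span_range_le γ)
  rw [Fintype.card_fin, Fintype.card_fin] at h1
  refine le_trans (Nat.mul_le_mul_right n (Finset.card_le_card ?_)) h1
  intro S hS
  rw [Finset.mem_filter] at hS ⊢
  exact ⟨Finset.mem_univ _, hS.2⟩

/-- the values of the polynomials of degree at most `D` -/
noncomputable def vals (D : ℕ) {r : ℕ} (x : Fin r → ℂ) : Submodule QB ℂ :=
  (MvPolynomial.restrictTotalDegree (Fin r) QB D).map (MvPolynomial.aeval x).toLinearMap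

theorem vals_fin_aux (D r : ℕ) :
    FiniteDimensional QB (MvPolynomial.restrictTotalDegree (Fin r) QB D) := by
  have h1 : {n : Fin r →₀ ℕ | (n.sum fun _ e => e) ≤ D}.Finite := Finsupp.finite_of_degree_le D
  have h2 : Finite {n : Fin r →₀ ℕ | (n.sum fun _ e => e) ≤ D} := h1
  exact Module.Finite.of_basis (MvPolynomial.basisRestrictSupport QB
    {n : Fin r →₀ ℕ | (n.sum fun _ e => e) ≤ D})

theorem vals_fin (D : ℕ) {r : ℕ} (x : Fin r → ℂ) : FiniteDimensional QB (vals D x) := by
  have := vals_fin_aux D r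
  unfold vals
  infer_instance

theorem vals_finrank (D : ℕ) {r : ℕ} (x : Fin r → ℂ) :
    finrank QB (vals D x) ≤ finrank QB (MvPolynomial.restrictTotalDegree (Fin r) QB D) := by
  have := vals_fin_aux D r
  exact Submodule.finrank_map_le _ _

theorem vals_mem (D : ℕ) {r : ℕ} (x : Fin r → ℂ) (P : MvPolynomial (Fin r) QB)
    (hP : P.totalDegree ≤ D) : MvPolynomial.aeval x P ∈ vals D x :=
  Submodule.mem_map_of_mem (by rw [MvPolynomial.mem_restrictTotalDegree]; exact hP)

theorem vals_one (D : ℕ) {r : ℕ} (x : Fin r → ℂ) : (1 : ℂ) ∈ vals D x := by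
  have h1 := vals_mem D x 1 (by simp)
  rwa [map_one] at h1

end Pool.Agent.TH812.SF
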