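import Pool.Agent.TH812.SF.Poly
import Pool.Agent.W254.HP.Prod

/-!
# Squarefree relations: logarithms of algebraic numbers
-/

set_option autoImplicit false

namespace Pool.Agent.TH812.SF

open Module Finset Pool.Agent.H301R2.SSE

theorem hyp_Lt : Hyp (Lt : Submodule QB ℂ) :=
  fun d l x a hx ha hxa hcol => Pool.Agent.W254.HP.hyperplane d l x a hx ha hxa hcol

theorem ind1_of_logs {ι : Type} [Fintype ι] (l : ι → ℂ)
    (halg : ∀ i, IsAlgebraic ℚ (Complex.exp (l i))) (hli : LinearIndependent ℚ l) : Ind1 QB l := by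
  intro c c₀ h
  obtain ⟨-, h2⟩ := Pool.Agent.H297R2.baker_inhom l halg hli (c₀ : ℂ) (mem_QB.mp c₀.2)
    (fun i => (c i : ℂ)) (fun i => mem_QB.mp (c i).2) h
  intro i
  exact_mod_cast h2 i

theorem finrank_span_range_le {g : ℕ} (γ : Fin g → ℂ) :
    finrank QB (Submodule.span QB (Set.range γ)) ≤ g := by
  refine (finrank_range_le_card γ).trans ?_
  rw [Fintype.card_fin]

open Classical in
/-- The real form of the bound. -/
theorem real_bound {c n K k D' : ℕ} (hD' : 0 < D') (hn : 0 < n)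
    (h : c ^ D' * n ≤ K * n ^ (D' * k)) :
    (c : ℝ) ≤ (K + 1 : ℝ) * (n : ℝ) ^ ((k : ℝ) - 1 / (D' : ℝ)) := by
  have hnR : (0 : ℝ) < n := by exact_mod_cast hn
  have hD'R : (0 : ℝ) < D' := by exact_mod_cast hD'
  have h1 : (c : ℝ) ^ D' * n ≤ K * (n : ℝ) ^ (D' * k) := by exact_mod_cast h
  have h2 : ((K + 1 : ℝ) * (n : ℝ) ^ ((k : ℝ) - 1 / (D' : ℝ))) ^ D' * n =
      (K + 1 : ℝ) ^ D' * (n : ℝ) ^ (D' * k) := by
    rw [mul_pow, ← Real.rpow_natCast ((n : ℝ) ^ ((k : ℝ) - 1 / (D' : ℝ))) D', ← Real.rpow_mul hnR.le,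
      mul_assoc]
    congr 1
    have h3 : ((k : ℝ) - 1 / (D' : ℝ)) * (D' : ℝ) = ((D' * k : ℕ) : ℝ) - 1 := by
      push_cast
      field_simp
    rw [h3, Real.rpow_sub_one hnR.ne', Real.rpow_natCast]
    field_simp
  have h4 : (K : ℝ) ≤ (K + 1 : ℝ) ^ D' := by
    have h5 : (1 : ℝ) ≤ K + 1 := by
      have : (0 : ℝ) ≤ K := Nat.cast_nonneg K
      linarith
    have h6 := le_self_pow₀ h5 hD'.ne'
    linarith
  have h7 : (c : ℝ) ^ D' * n ≤ ((K + 1 : ℝ) * (n : ℝ) ^ ((k : ℝ) - 1 / (D' : ℝ))) ^ D' * n := by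
    rw [h2]
    refine h1.trans ?_
    exact mul_le_mul_of_nonneg_right h4 (by positivity)
  have h8 := le_of_mul_le_mul_right h7 hnR
  exact le_of_pow_le_pow_left₀ hD'.ne' (by positivity) h8

open Classical in
/-- **Main theorem on relations with squarefree mixed monomials and pure powers.** -/
theorem main (k D N g : ℕ) (hD : 1 ≤ D) :
    ∃ K : ℝ, ∀ (n : ℕ) (l : Fin n → ℂ), (∀ i, IsAlgebraic ℚ (Complex.exp (l i))) →
      LinearIndependent ℚ l → ∀ (γ : Fin g → ℂ) (U : Submodule QB ℂ), FiniteDimensional QB U →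
      finrank QB U ≤ N → (1 : ℂ) ∈ U →
      ((Finset.univ.filter fun s : Fin k → Fin n => ∃ P : MvPolynomial (Fin k) ℂ,
        (∀ m, P.coeff m ∈ U) ∧ (∀ m ∈ P.support, Allowed D m) ∧
        MvPolynomial.eval (fun i => l (s i)) P ∈ Lt ⊔ Submodule.span QB (Set.range γ) ∧
        ∃ m ∈ P.support, 2 ≤ m.support.card).card : ℝ) ≤
      K * (n : ℝ) ^ ((k : ℝ) - 1 / (((D - 1) * N + 1 : ℕ) : ℝ)) := by
  obtain ⟨E, rfl⟩ : ∃ E, D = E + 1 := ⟨D - 1, by omega⟩
  rcases k with _ | k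
  · refine ⟨0, ?_⟩
    intro n l _ _ γ U _ _ _
    rw [zero_mul]
    apply le_of_eq
    rw [Nat.cast_eq_zero, Finset.card_eq_zero, Finset.filter_eq_empty_iff]
    rintro s - ⟨P, -, -, -, m, -, hm⟩
    have : m.support.card ≤ Fintype.card (Fin 0) := Finset.card_le_univ _
    rw [Fintype.card_fin] at this
    omega
  set d := 2 ^ ((E * N + 1) * k) * N + (E * N + 1) * k * E * N + g with hd
  set K := (k + 1) ^ (E * N + 1) * (d * (d - 1) + cst N g ((E * N + 1) * k)) with hK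
  refine ⟨K + 1, ?_⟩
  intro n l halg hli γ U hUf hUN hU1
  rcases Nat.eq_zero_or_pos n with rfl | hn
  · have : (Finset.univ.filter fun s : Fin (k + 1) → Fin 0 => ∃ P : MvPolynomial (Fin (k + 1)) ℂ,
        (∀ m, P.coeff m ∈ U) ∧ (∀ m ∈ P.support, Allowed (E + 1) m) ∧
        MvPolynomial.eval (fun i => l (s i)) P ∈ Lt ⊔ Submodule.span QB (Set.range γ) ∧
        ∃ m ∈ P.support, 2 ≤ m.support.card).card = 0 := by
      rw [Finset.card_eq_zero, Finset.filter_eq_empty_iff]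
      intro s
      exact (s 0).elim0
    rw [this]
    have h1 : (0 : ℝ) ≤ K := Nat.cast_nonneg K
    have h2 : (0 : ℝ) ≤ ((0 : ℕ) : ℝ) ^ (((k + 1 : ℕ) : ℝ) - 1 / (((E + 1 - 1) * N + 1 : ℕ) : ℝ)) :=
      Real.rpow_nonneg (by simp) _
    rw [Nat.cast_zero]
    positivity
  · have hE : (E + 1 - 1) * N + 1 = E * N + 1 := by rw [Nat.add_sub_cancel]
    rw [hE]
    have hGf : FiniteDimensional QB (Submodule.span QB (Set.range γ)) :=
      FiniteDimensional.span_of_finite QB (Set.finite_range γ)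
    have h1 := count_all hyp_Lt Lt_one l (fun i => Lt_log (halg i)) (ind1_of_logs l halg hli) U
      (Submodule.span QB (Set.range γ)) hUf hGf hU1 E N g hUN (finrank_span_range_le γ) k d le_rfl
    rw [Fintype.card_fin] at h1
    refine real_bound (Nat.succ_pos _) hn (le_trans (Nat.mul_le_mul_right n
      (Nat.pow_le_pow_left (Finset.card_le_card ?_) _)) h1)
    intro s hs
    rw [Finset.mem_filter] at hs ⊢
    obtain ⟨-, P, h2, h3, h4, h5⟩ := hs
    exact ⟨Finset.mem_univ _, relAt_of_poly U _ l s P h2 h3 h4 h5⟩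

end Pool.Agent.TH812.SF
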