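import Pool.Agent.TH812.SF.Abs
import Pool.Agent.W254.PA.LogP
import Pool.Agent.W245.PB.BakerThmP

/-!
# Squarefree relations: `p`-adic logarithms of algebraic numbers
-/

set_option autoImplicit false

namespace Pool.Agent.TH812.SF

open Module Finset Pool.Agent.W254.PA
open Pool.Agent.W245.PB (IsIwasawaLog brumer)

variable {p : ℕ} [hp : Fact p.Prime] {L : PadicAlgCl p → PadicAlgCl p}

theorem hyp_P (hL : IsIwasawaLog p L) : Hyp (LtE (logs L)) :=
  fun d l x a hx ha hxa hcol => hyp_padic hL d l x a hx ha hxa hcol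

theorem ind1_P (hL : IsIwasawaLog p L) {ι : Type} [Fintype ι] (w : ι → PadicAlgCl p)
    (hw : ∀ i, ∃ α : PadicAlgCl p, α ≠ 0 ∧ IsAlgebraic ℚ α ∧ w i = L α)
    (hli : LinearIndependent ℚ w) : Ind1 (algebraicClosure ℚ (PadicAlgCl p)) w := by
  intro c c₀ h
  choose α hα0 hα hwα using hw
  have h1 : w = fun i => L (α i) := funext hwα
  rw [h1] at hli
  obtain ⟨-, h2⟩ := brumer hL α hα0 hα hli (c₀ : PadicAlgCl p) (mem_algebraicClosure_iff.mp c₀.2)
    (fun i => (c i : PadicAlgCl p)) (fun i => mem_algebraicClosure_iff.mp (c i).2) (by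
      rw [h1] at h
      exact h)
  intro i
  exact_mod_cast h2 i

open Classical in
/-- The `p`-adic version. -/
theorem main_P (hL : IsIwasawaLog p L) (k D N g n : ℕ) (hD : 1 ≤ D) (w : Fin n → PadicAlgCl p)
    (hw : ∀ i, ∃ α : PadicAlgCl p, α ≠ 0 ∧ IsAlgebraic ℚ α ∧ w i = L α)
    (hli : LinearIndependent ℚ w) (γ : Fin g → PadicAlgCl p)
    (U : Submodule (algebraicClosure ℚ (PadicAlgCl p)) (PadicAlgCl p))
    (hUf : FiniteDimensional (algebraicClosure ℚ (PadicAlgCl p)) U)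
    (hUN : finrank (algebraicClosure ℚ (PadicAlgCl p)) U ≤ N) (hU1 : (1 : PadicAlgCl p) ∈ U) :
      ((Finset.univ.filter fun s : Fin k → Fin n => ∃ P : MvPolynomial (Fin k) (PadicAlgCl p),
        (∀ m, P.coeff m ∈ U) ∧ (∀ m ∈ P.support, Allowed D m) ∧
        MvPolynomial.eval (fun i => w (s i)) P ∈
          LtE (logs L) ⊔ Submodule.span (algebraicClosure ℚ (PadicAlgCl p)) (Set.range γ) ∧
        ∃ m ∈ P.support, 2 ≤ m.support.card).card : ℝ) ≤
      (KK (D - 1) N g k + 1 : ℝ) * (n : ℝ) ^ ((k : ℝ) - 1 / (((D - 1) * N + 1 : ℕ) : ℝ)) := by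
  refine main_abs (hyp_P hL) (Submodule.subset_span (Or.inl rfl)) k D N g n hD w ?_
    (ind1_P hL w hw hli) U _ hUf (FiniteDimensional.span_of_finite _ (Set.finite_range γ)) hUN ?_ hU1
  · intro i
    obtain ⟨α, h1, h2, h3⟩ := hw i
    rw [h3]
    exact Submodule.subset_span (Or.inr ⟨α, h1, h2, rfl⟩)
  · refine (finrank_range_le_card γ).trans ?_
    rw [Fintype.card_fin]

end Pool.Agent.TH812.SF
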