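import Mathlib

/-!
# Selection of infinite sets by an ultrafilter
-/

set_option autoImplicit false

namespace Pool.Agent.TH812.SF

open Finset Filter

theorem hyper_gt (M : ℕ) : ∀ᶠ j in (Filter.hyperfilter ℕ : Filter ℕ), M < j :=
  (Filter.hyperfilter_le_cofinite : (Filter.hyperfilter ℕ : Filter ℕ) ≤ Filter.cofinite) (by
    rw [Nat.cofinite_eq_atTop]
    exact Filter.eventually_gt_atTop M)

theorem select (G : ℕ → Finset ℕ → Prop) (h0 : ∀ D, G D ∅)
    (h1 : ∀ D S, G D S → ∀ᶠ j in (Filter.hyperfilter ℕ : Filter ℕ), G D (insert j S)) :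
    ∃ q : ℕ → ℕ, StrictMono q ∧ ∀ (D : ℕ) (S : Finset ℕ), (∀ i ∈ S, D ≤ i) → G D (S.image q) := by
  classical
  let Inv : List ℕ → Prop := fun h => ∀ (D : ℕ) (S : Finset ℕ), S ⊆ (h.drop D).toFinset → G D S
  have hInv0 : Inv [] := by
    intro D S hS
    rw [List.drop_nil, List.toFinset_nil, Finset.subset_empty] at hS
    rw [hS]
    exact h0 D
  have hstep : ∀ h : List ℕ, Inv h → ∃ j, (∀ x ∈ h, x < j) ∧ Inv (h ++ [j]) := by
    intro h hh
    have e1 : ∀ᶠ j in (Filter.hyperfilter ℕ : Filter ℕ), ∀ x ∈ h.toFinset, x < j :=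
      (Filter.eventually_all_finset _).mpr fun x _ => hyper_gt x
    have e2 : ∀ᶠ j in (Filter.hyperfilter ℕ : Filter ℕ), ∀ D ∈ Finset.range (h.length + 1),
        ∀ S ∈ ((h.drop D).toFinset).powerset, G D (insert j S) :=
      (Filter.eventually_all_finset _).mpr fun D _ => (Filter.eventually_all_finset _).mpr
        fun S hS => h1 D S (hh D S (Finset.mem_powerset.mp hS))
    obtain ⟨j, hj1, hj2⟩ := (e1.and e2).exists
    refine ⟨j, fun x hx => hj1 x (List.mem_toFinset.mpr hx), ?_⟩
    intro D S hS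
    by_cases hD : D ≤ h.length
    · rw [List.drop_append_of_le_length hD, List.toFinset_append] at hS
      by_cases hjS : j ∈ S
      · have h3 := hj2 D (Finset.mem_range.mpr (Nat.lt_succ_of_le hD)) (S.erase j) (by
          rw [Finset.mem_powerset]
          intro x hx
          rw [Finset.mem_erase] at hx
          have h4 := hS hx.2
          rw [Finset.mem_union] at h4
          rcases h4 with h4 | h4
          · exact h4
          · exfalso
            apply hx.1
            simpa using h4)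
        rwa [Finset.insert_erase hjS] at h3
      · apply hh D S
        intro x hx
        have h4 := hS hx
        rw [Finset.mem_union] at h4
        rcases h4 with h4 | h4
        · exact h4
        · exfalso
          apply hjS
          have : x = j := by simpa using h4
          rwa [← this]
    · rw [List.drop_eq_nil_of_le (by
        rw [List.length_append, List.length_singleton]; omega), List.toFinset_nil,
        Finset.subset_empty] at hS
      rw [hS]
      exact h0 D
  have hnx : ∃ nxt : {h : List ℕ // Inv h} → ℕ, ∀ h : {h : List ℕ // Inv h},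
      (∀ x ∈ h.1, x < nxt h) ∧ Inv (h.1 ++ [nxt h]) :=
    ⟨fun h => (hstep h.1 h.2).choose, fun h => (hstep h.1 h.2).choose_spec⟩
  obtain ⟨nxt, hnxt⟩ := hnx
  have hsq : ∃ seq : ℕ → {h : List ℕ // Inv h}, (seq 0).1 = [] ∧
      ∀ n, (seq (n + 1)).1 = (seq n).1 ++ [nxt (seq n)] :=
    ⟨fun n => Nat.rec ⟨[], hInv0⟩ (fun _ h => ⟨h.1 ++ [nxt h], (hnxt h).2⟩) n, rfl, fun _ => rfl⟩
  obtain ⟨seq, hseq0, hseqS⟩ := hsq
  obtain ⟨q, hqdef⟩ : ∃ q : ℕ → ℕ, ∀ n, q n = nxt (seq n) := ⟨_, fun _ => rfl⟩
  have hseq : ∀ n, (seq n).1 = (List.range n).map q := by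
    intro n
    induction n with
    | zero => rw [hseq0]; rfl
    | succ n ih =>
      rw [List.range_succ, List.map_append, ← ih, hseqS, List.map_singleton, hqdef]
  have hq : StrictMono q := by
    apply strictMono_nat_of_lt_succ
    intro n
    rw [hqdef (n + 1)]
    apply (hnxt (seq (n + 1))).1
    rw [hseq (n + 1), List.mem_map]
    exact ⟨n, by rw [List.mem_range]; omega, rfl⟩
  refine ⟨q, hq, ?_⟩
  intro D S hS
  apply (seq (S.sup id + 1)).2 D
  rw [hseq (S.sup id + 1)]
  intro x hx
  rw [Finset.mem_image] at hx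
  obtain ⟨i, hi, rfl⟩ := hx
  have h3 : i ≤ S.sup id := Finset.le_sup (f := id) hi
  have h4 := hS i hi
  rw [List.mem_toFinset, ← List.map_drop, List.mem_map]
  refine ⟨i, ?_, rfl⟩
  rw [List.mem_drop_iff_getElem]
  refine ⟨i - D, ?_, ?_⟩
  · rw [List.length_range]; omega
  · rw [List.getElem_range]; omega

/-- iterated largeness -/
def Fm (B : Finset ℕ → Prop) : ℕ → Finset ℕ → Prop
  | 0, S => B S
  | m + 1, S => ∀ᶠ j in (Filter.hyperfilter ℕ : Filter ℕ), Fm B m (insert j S)

theorem not_Fm (B : Finset ℕ → Prop) (m : ℕ) : ∀ S : Finset ℕ, ¬ Fm B m S →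
    Fm (fun S => ¬ B S) m S := by
  induction m with
  | zero => intro S h; exact h
  | succ m ih =>
    intro S h
    have h2 : ∀ᶠ j in (Filter.hyperfilter ℕ : Filter ℕ), ¬ Fm B m (insert j S) :=
      Ultrafilter.eventually_not.mpr h
    exact h2.mono fun j hj => ih _ hj

/-- the property used in the selection -/
theorem Fm_step (B : Finset ℕ → Prop) (k : ℕ) (S : Finset ℕ)
    (h : S.card ≤ k → Fm B (k - S.card) S) :
    ∀ᶠ j in (Filter.hyperfilter ℕ : Filter ℕ),
      (insert j S).card ≤ k → Fm B (k - (insert j S).card) (insert j S) := by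
  classical
  have e1 : ∀ᶠ j in (Filter.hyperfilter ℕ : Filter ℕ), j ∉ S := by
    refine (hyper_gt (S.sup id)).mono fun j hj hjS => ?_
    have : j ≤ S.sup id := Finset.le_sup (f := id) hjS
    omega
  by_cases hk : S.card + 1 ≤ k
  · have h2 := h (by omega)
    obtain ⟨m, hm⟩ : ∃ m, k - S.card = m + 1 := ⟨k - S.card - 1, by omega⟩
    rw [hm] at h2
    have h3 : ∀ᶠ j in (Filter.hyperfilter ℕ : Filter ℕ), Fm B m (insert j S) := h2
    filter_upwards [e1, h3] with j hj hj3 _
    rw [Finset.card_insert_of_notMem hj]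
    have : k - (S.card + 1) = m := by omega
    rwa [this]
  · filter_upwards [e1] with j hj h4
    rw [Finset.card_insert_of_notMem hj] at h4
    exact absurd h4 hk

/-- if almost all `k`-tuples do not satisfy `B`, then all subsets of cardinality `k` of some infinite
set fail `B` -/
theorem exists_of_not_Fm (B : Finset ℕ → Prop) (k : ℕ) (h : ¬ Fm B k ∅) :
    ∃ q : ℕ → ℕ, StrictMono q ∧ ∀ S : Finset ℕ, S.card = k → ¬ B (S.image q) := by
  classical
  obtain ⟨q, hq, h2⟩ := select (fun _ S => S.card ≤ k → Fm (fun S => ¬ B S) (k - S.card) S)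
    (fun _ _ => by
      rw [Finset.card_empty, Nat.sub_zero]
      exact not_Fm B k ∅ h)
    (fun _ S hS => Fm_step _ k S hS)
  refine ⟨q, hq, fun S hS => ?_⟩
  have h3 := h2 0 S (fun i _ => Nat.zero_le i) (by
    rw [Finset.card_image_of_injective _ hq.injective, hS])
  rw [Finset.card_image_of_injective _ hq.injective, hS, Nat.sub_self] at h3
  exact h3

end Pool.Agent.TH812.SF
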