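import Pool.Agent.TH812.SF.Inst
import Pool.Agent.TH812.SF.Select

/-!
# Squarefree relations: infinite sets
-/

set_option autoImplicit false

namespace Pool.Agent.TH812.SF

open Module Finset Pool.Agent.H301R2.SSE Filter

theorem good_congr {C κ : Type} [Field κ] [Field C] [Algebra κ C] {σ ι ι' : Type} [Fintype σ]
    {U V : Submodule κ C} {v : ι → C} {v' : ι' → C} {s : σ → ι} {s' : σ → ι'}
    (h : ∀ i, v (s i) = v' (s' i)) (hG : Good U V v s) : Good U V v' s' := by
  have h1 : (fun i => v (s i)) = fun i => v' (s' i) := funext h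
  have h2 : Good U V (fun i => v (s i)) (id : σ → σ) := hG
  rw [h1] at h2
  exact h2

theorem good_one_of_isEmpty {C κ : Type} [Field κ] [Field C] [Algebra κ C] {σ ι : Type} [Fintype σ]
    [IsEmpty σ] (U V : Submodule κ C) (v : ι → C) (s : σ → ι) : Good U V v s := by
  constructor
  · intro u _ _
    constructor
    · intro A hA
      exfalso
      have : A.card ≤ Fintype.card σ := Finset.card_le_univ A
      rw [Fintype.card_eq_zero] at this
      omega
    · intro i; exact isEmptyElim i
  · intro q _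
    funext i
    exact isEmptyElim i

/-- logarithms of a sequence -/
structure LogSeq (l : ℕ → ℂ) : Prop where
  alg : ∀ i, IsAlgebraic ℚ (Complex.exp (l i))
  ind : LinearIndependent ℚ l

theorem good_next {l : ℕ → ℂ} (hl : LogSeq l) (U G : Submodule QB ℂ)
    [FiniteDimensional QB U] [FiniteDimensional QB G] (hU : (1 : ℂ) ∈ U) (S : Finset ℕ)
    (hS : Good U (Lt ⊔ G) l (Subtype.val : {x // x ∈ S} → ℕ)) :
    ∀ᶠ j in (Filter.hyperfilter ℕ : Filter ℕ),
      Good U (Lt ⊔ G) l (Subtype.val : {x // x ∈ insert j S} → ℕ) := by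
  classical
  have hfin : {j : ℕ | ¬ Good U (Lt ⊔ G) l (ext (Subtype.val : {x // x ∈ S} → ℕ) j)}.Finite := by
    by_contra hinf
    obtain ⟨B, hB⟩ : ∃ B : ℕ, B = finrank QB U + Fintype.card {x // x ∈ S} +
      (2 ^ Fintype.card {x // x ∈ S} * finrank QB U + finrank QB G) *
      (2 ^ Fintype.card {x // x ∈ S} * finrank QB U + finrank QB G - 1) := ⟨_, rfl⟩
    obtain ⟨J, hJ1, hJ2⟩ := Set.Infinite.exists_subset_card_eq hinf (B + 1)
    let T : Finset ℕ := S ∪ J
    let v : {x // x ∈ T} → ℂ := fun x => l x.1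
    have hli : LinearIndependent ℚ v := hl.ind.comp _ Subtype.val_injective
    let s : {x // x ∈ S} → {x // x ∈ T} := fun x => ⟨x.1, Finset.mem_union_left _ x.2⟩
    let eJ : {x // x ∈ J} ↪ {x // x ∈ T} := ⟨fun x => ⟨x.1, Finset.mem_union_right _ x.2⟩,
      fun x y h => Subtype.ext (congrArg (fun z : {x // x ∈ T} => z.1) h)⟩
    let J' : Finset {x // x ∈ T} := J.attach.map eJ
    have h1 := step hyp_Lt Lt_one v (fun i => Lt_log (hl.alg i.1))
      (ind1_of_logs v (fun i => hl.alg i.1) hli) U G hU s (good_congr (fun i => rfl) hS)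
      (finrank QB U) (finrank QB G) le_rfl le_rfl J' (by
        intro j hj
        rw [Finset.mem_map] at hj
        obtain ⟨x, -, rfl⟩ := hj
        have h2 := hJ1 x.2
        intro h3
        apply h2
        refine good_congr ?_ h3
        intro o
        rcases o with _ | i <;> rfl)
    rw [Finset.card_map, Finset.card_attach, hJ2, ← hB] at h1
    omega
  have e1 : ∀ᶠ j in (Filter.hyperfilter ℕ : Filter ℕ),
      Good U (Lt ⊔ G) l (ext (Subtype.val : {x // x ∈ S} → ℕ) j) := by
    have h2 := Filter.hyperfilter_le_cofinite (α := ℕ) (hfin.compl_mem_cofinite)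
    refine Filter.mem_of_superset h2 ?_
    intro j hj
    simpa using hj
  have e2 : ∀ᶠ j in (Filter.hyperfilter ℕ : Filter ℕ), j ∉ S := by
    refine (hyper_gt (S.sup id)).mono fun j hj hjS => ?_
    have : j ≤ S.sup id := Finset.le_sup (f := id) hjS
    omega
  filter_upwards [e1, e2] with j h1 h2
  have h3 := good_equiv (Finset.subtypeInsertEquivOption h2) h1
  refine good_congr ?_ h3
  rintro ⟨x, hx⟩
  simp only [Function.comp_apply, Finset.subtypeInsertEquivOption, Equiv.coe_fn_mk]
  split_ifs with h4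
  · rw [h4]; rfl
  · rfl

theorem relAt_congr {C κ : Type} [Field κ] [Field C] [Algebra κ C] {σ ι ι' : Type} [Fintype σ]
    {U V : Submodule κ C} {E : ℕ} {v : ι → C} {v' : ι' → C} {s : σ → ι} {s' : σ → ι'}
    (h : ∀ i, v (s i) = v' (s' i)) {i : σ} (hG : RelAt U V E v s i) : RelAt U V E v' s' i := by
  have h1 : (fun i => v (s i)) = fun i => v' (s' i) := funext h
  have h2 : RelAt U V E (fun i => v (s i)) (id : σ → σ) i := hG
  rw [h1] at h2
  exact h2

/-- the property of sets used for the pure powers -/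
def NoRelSet (U G : Submodule QB ℂ) (E : ℕ) (l : ℕ → ℂ) (S : Finset ℕ) : Prop :=
  ∀ i, ¬ RelAt U (Lt ⊔ G) E l (Subtype.val : {x // x ∈ S} → ℕ) i

theorem noRelSet_tuple {U G : Submodule QB ℂ} {E : ℕ} {l : ℕ → ℂ} {k : ℕ} (s : Fin k → ℕ)
    (hs : Function.Injective s) (h : NoRelSet U G E l (Finset.univ.image s)) (i : Fin k) :
    ¬ RelAt U (Lt ⊔ G) E l s i := by
  intro hR
  let e : {x // x ∈ Finset.univ.image s} ≃ Fin k :=
    (Equiv.ofBijective (fun i : Fin k => (⟨s i, Finset.mem_image_of_mem s (Finset.mem_univ i)⟩ :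
      {x // x ∈ Finset.univ.image s})) ⟨fun a b hab => hs (congrArg Subtype.val hab), by
        rintro ⟨x, hx⟩
        obtain ⟨i, -, rfl⟩ := Finset.mem_image.mp hx
        exact ⟨i, rfl⟩⟩).symm
  have h2 := relAt_equiv e hR
  refine h (e.symm i) (relAt_congr ?_ h2)
  intro x
  have h3 : s (e x) = x.1 := by
    have h4 := e.symm_apply_apply x
    exact congrArg Subtype.val h4
  rw [Function.comp_apply, h3]

theorem noRelSet_of_tuple {U G : Submodule QB ℂ} {E : ℕ} {l : ℕ → ℂ} {k : ℕ} (s : Fin k → ℕ)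
    (hs : Function.Injective s) (h : ∀ i, ¬ RelAt U (Lt ⊔ G) E l s i) :
    NoRelSet U G E l (Finset.univ.image s) := by
  intro x hR
  let e : Fin k ≃ {x // x ∈ Finset.univ.image s} :=
    (Equiv.ofBijective (fun i : Fin k => (⟨s i, Finset.mem_image_of_mem s (Finset.mem_univ i)⟩ :
      {x // x ∈ Finset.univ.image s})) ⟨fun a b hab => hs (congrArg Subtype.val hab), by
        rintro ⟨x, hx⟩
        obtain ⟨i, -, rfl⟩ := Finset.mem_image.mp hx
        exact ⟨i, rfl⟩⟩)
  have h2 := relAt_equiv e hR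
  exact h _ (relAt_congr (fun i => rfl) h2)

/-- almost all tuples have no relation -/
theorem large {l : ℕ → ℂ} (hl : LogSeq l) (U G : Submodule QB ℂ)
    (hUf : FiniteDimensional QB U) (hGf : FiniteDimensional QB G) (hU : (1 : ℂ) ∈ U) (E k : ℕ) :
    Fm (NoRelSet U G E l) (k + 1) ∅ := by
  classical
  by_contra hcon
  obtain ⟨q, hq, h⟩ := exists_of_not_Fm _ _ hcon
  obtain ⟨N, hN⟩ : ∃ N, N = finrank QB U := ⟨_, rfl⟩
  obtain ⟨d, hd⟩ : ∃ d, d = 2 ^ ((E * N + 1) * k) * N + (E * N + 1) * k * E * N + finrank QB G :=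
    ⟨_, rfl⟩
  obtain ⟨K, hK⟩ : ∃ K, K = (k + 1) ^ (E * N + 1) *
    (d * (d - 1) + cst N (finrank QB G) ((E * N + 1) * k)) := ⟨_, rfl⟩
  obtain ⟨m, hm⟩ : ∃ m, m = K * 2 ^ ((E * N + 1) * (k + 1)) + (k + 1) := ⟨_, rfl⟩
  let v : Fin (2 * m) → ℂ := fun j => l (q j)
  have hli : LinearIndependent ℚ v :=
    hl.ind.comp _ (fun a b hab => Fin.ext (hq.injective hab))
  have h1 := count_all hyp_Lt Lt_one v (fun i => Lt_log (hl.alg _))
    (ind1_of_logs v (fun i => hl.alg _) hli) U G hUf hGf hU E N (finrank QB G) (le_of_eq hN.symm)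
    le_rfl k d (le_of_eq hd.symm)
  rw [← hK, Fintype.card_fin] at h1
  have h2 : m ^ (k + 1) ≤ (Finset.univ.filter fun s : Fin (k + 1) → Fin (2 * m) =>
      ∃ i, RelAt U (Lt ⊔ G) E v s i).card := by
    calc m ^ (k + 1) ≤ (2 * m + 1 - (k + 1)) ^ (k + 1) := by
          apply Nat.pow_le_pow_left
          have : k + 1 ≤ m := by rw [hm]; exact Nat.le_add_left _ _
          omega
      _ ≤ (2 * m).descFactorial (k + 1) := Nat.pow_sub_le_descFactorial _ _
      _ = (Finset.univ : Finset (Fin (k + 1) ↪ Fin (2 * m))).card := by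
          rw [Finset.card_univ, Fintype.card_embedding_eq, Fintype.card_fin, Fintype.card_fin]
      _ ≤ _ := by
          refine Finset.card_le_card_of_injOn (fun f => (f : Fin (k + 1) → Fin (2 * m))) ?_ ?_
          · intro f _
            rw [Finset.mem_coe, Finset.mem_filter]
            refine ⟨Finset.mem_univ _, ?_⟩
            have hinj : Function.Injective fun i => q (f i) := fun a b hab =>
              f.injective (Fin.ext (hq.injective hab))
            have h3 := h (Finset.univ.image fun i => ((f i : Fin (2 * m)) : ℕ)) (by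
              rw [Finset.card_image_of_injective _ (fun a b hab => f.injective (Fin.ext hab)),
                Finset.card_univ, Fintype.card_fin])
            rw [Finset.image_image] at h3
            by_contra h4
            push Not at h4
            exact h3 (noRelSet_of_tuple (fun i => q (f i)) hinj
              fun i hi => h4 i (relAt_congr (fun _ => rfl) hi))
          · intro f _ f' _ hff
            exact DFunLike.coe_injective hff
  have h3 : (m ^ (k + 1)) ^ (E * N + 1) * (2 * m) ≤ K * (2 * m) ^ ((E * N + 1) * (k + 1)) :=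
    (Nat.mul_le_mul_right _ (Nat.pow_le_pow_left h2 _)).trans h1
  have hm0 : 0 < m := by rw [hm]; omega
  have h4 : m ^ ((E * N + 1) * (k + 1)) * (2 * m) ≤
      m ^ ((E * N + 1) * (k + 1)) * (K * 2 ^ ((E * N + 1) * (k + 1))) := by
    calc m ^ ((E * N + 1) * (k + 1)) * (2 * m) = (m ^ (k + 1)) ^ (E * N + 1) * (2 * m) := by
          rw [← pow_mul, mul_comm (k + 1)]
      _ ≤ K * (2 * m) ^ ((E * N + 1) * (k + 1)) := h3
      _ = _ := by rw [mul_pow]; ring
  have h5 := Nat.le_of_mul_le_mul_left h4 (by positivity)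
  have h6 : K * 2 ^ ((E * N + 1) * (k + 1)) < m := by rw [hm]; omega
  omega

/-- **Infinite sets of logarithms.** -/
theorem exists_infinite {l : ℕ → ℂ} (hl : LogSeq l) (W : ℕ → Submodule QB ℂ)
    (hW : ∀ D, FiniteDimensional QB (W D)) (hW1 : ∀ D, (1 : ℂ) ∈ W D) :
    ∃ q : ℕ → ℕ, StrictMono q ∧
      (∀ k, Good (1 : Submodule QB ℂ) (Lt ⊔ W 0) l (fun i : Fin k => q i)) ∧
      ∀ (D : ℕ) (t : Fin D → ℕ), Function.Injective t → (∀ i, D ≤ t i) →
        ∀ i, ¬ RelAt (W D) (Lt ⊔ W D) D l (fun i => q (t i)) i := by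
  classical
  have hone : FiniteDimensional QB (1 : Submodule QB ℂ) := by
    rw [Submodule.one_eq_span]
    infer_instance
  obtain ⟨q, hq, h⟩ := select (fun D S =>
    Good (1 : Submodule QB ℂ) (Lt ⊔ W 0) l (Subtype.val : {x // x ∈ S} → ℕ) ∧
    (1 ≤ D → S.card ≤ D → Fm (NoRelSet (W D) (W D) D l) (D - S.card) S)) (by
      intro D
      constructor
      · have : IsEmpty {x // x ∈ (∅ : Finset ℕ)} := ⟨fun x => absurd x.2 (Finset.notMem_empty _)⟩
        exact good_one_of_isEmpty _ _ _ _
      · intro hD _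
        obtain ⟨k, rfl⟩ : ∃ k, D = k + 1 := ⟨D - 1, by omega⟩
        rw [Finset.card_empty, Nat.sub_zero]
        exact large hl _ _ (hW _) (hW _) (hW1 _) _ _) (by
      rintro D S ⟨h1, h2⟩
      have e1 := good_next hl (1 : Submodule QB ℂ) (W 0) (Submodule.one_le.mp le_rfl) S h1
      by_cases hD : 1 ≤ D
      · have e2 := Fm_step (NoRelSet (W D) (W D) D l) D S (h2 hD)
        filter_upwards [e1, e2] with j h3 h4
        exact ⟨h3, fun _ => h4⟩
      · filter_upwards [e1] with j h3
        exact ⟨h3, fun h => absurd h hD⟩)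
  refine ⟨q, hq, ?_, ?_⟩
  · intro k
    have h1 := (h 0 (Finset.range k) (fun _ _ => Nat.zero_le _)).1
    let e : Fin k ≃ {x // x ∈ (Finset.range k).image q} :=
      (Equiv.ofBijective (fun i : Fin k => (⟨q i, Finset.mem_image_of_mem q
        (Finset.mem_range.mpr i.2)⟩ : {x // x ∈ (Finset.range k).image q}))
        ⟨fun a b hab => Fin.ext (hq.injective (congrArg Subtype.val hab)), by
          rintro ⟨x, hx⟩
          obtain ⟨i, hi, rfl⟩ := Finset.mem_image.mp hx
          exact ⟨⟨i, Finset.mem_range.mp hi⟩, rfl⟩⟩)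
    have h2 := good_equiv e h1
    refine good_congr ?_ h2
    intro i
    rfl
  · intro D t ht htD
    rcases Nat.eq_zero_or_pos D with rfl | hD
    · intro i; exact i.elim0
    · have hc : (Finset.univ.image t).card = D := by
        rw [Finset.card_image_of_injective _ ht, Finset.card_univ, Fintype.card_fin]
      have h1 := (h D (Finset.univ.image t) (by
        intro i hi
        obtain ⟨j, -, rfl⟩ := Finset.mem_image.mp hi
        exact htD j)).2 hD (by
          rw [Finset.card_image_of_injective _ hq.injective, hc])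
      rw [Finset.card_image_of_injective _ hq.injective, hc, Nat.sub_self] at h1
      have h2 : NoRelSet (W D) (W D) D l (Finset.univ.image fun i => q (t i)) := by
        rw [Finset.image_image] at h1
        exact h1
      exact noRelSet_tuple (fun i => q (t i)) (hq.injective.comp ht) h2

end Pool.Agent.TH812.SF
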