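import Pool.Agent.TH812.SF.Poly

/-!
# Squarefree relations: the abstract main theorem
-/

set_option autoImplicit false

namespace Pool.Agent.TH812.SF

open Module Finset

/-- The real form of the bound. -/
theorem real_bound' {c n K k D' : ℕ} (hD' : 0 < D') (hn : 0 < n)
    (h : c ^ D' * n ≤ K * n ^ (D' * k)) :
    (c : ℝ) ≤ (K + 1 : ℝ) * (n : ℝ) ^ ((k : ℝ) - 1 / (D' : ℝ)) := by
  have hnR : (0 : ℝ) < n := by exact_mod_cast hn
  have hD'R : (0 : ℝ) < D' := by exact_mod_cast hD'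
  have h1 : (c : ℝ) ^ D' * n ≤ K * (n : ℝ) ^ (D' * k) := by exact_mod_cast h
  have h2 : ((K + 1 : ℝ) * (n : ℝ) ^ ((k : ℝ) - 1 / (D' : ℝ))) ^ D' * n =
      (K + 1 : ℝ) ^ D' * (n : ℝ) ^ (D' * k) := by
    rw [mul_pow, ← Real.rpow_natCast ((n : ℝ) ^ ((k : ℝ) - 1 / (D' : ℝ))) D', ← Real.rpow_mul hnR.le,
      mul_assoc]
    congr 1
    have h3 : ((k : ℝ) - 1 / (D' : ℝ)) * (D' : ℝ) = ((D' * k : ℕ) : ℝ) - 1 := by
      push_cast
      field_simp
    rw [h3, Real.rpow_sub_one hnR.ne', Real.rpow_natCast]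
    field_simp
  have h4 : (K : ℝ) ≤ (K + 1 : ℝ) ^ D' := by
    have h5 : (1 : ℝ) ≤ K + 1 := by
      have : (0 : ℝ) ≤ K := Nat.cast_nonneg K
      linarith
    have h6 := le_self_pow₀ h5 hD'.ne'
    linarith
  have h7 : (c : ℝ) ^ D' * n ≤ ((K + 1 : ℝ) * (n : ℝ) ^ ((k : ℝ) - 1 / (D' : ℝ))) ^ D' * n := by
    rw [h2]
    refine h1.trans ?_
    exact mul_le_mul_of_nonneg_right h4 (by positivity)
  have h8 := le_of_mul_le_mul_right h7 hnR
  exact le_of_pow_le_pow_left₀ hD'.ne' (by positivity) h8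

/-- the dimension used in the constant -/
def dK (k E N g : ℕ) : ℕ :=
  2 ^ ((E * N + 1) * k) * N + (E * N + 1) * k * E * N + g

/-- the constant -/
def KK (E N g : ℕ) : ℕ → ℕ
  | 0 => 0
  | k + 1 => (k + 1) ^ (E * N + 1) *
      (dK k E N g * (dK k E N g - 1) + cst N g ((E * N + 1) * k))

open Classical in
/-- **Main theorem on relations with squarefree mixed monomials and pure powers.** -/
theorem main_abs {κ C : Type} [Field κ] [Field C] [Algebra κ C] {L : Submodule κ C} (hyp : Hyp L)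
    (h1L : (1 : C) ∈ L) (k D N g n : ℕ) (hD : 1 ≤ D) (l : Fin n → C) (hl : ∀ i, l i ∈ L)
    (hli : Ind1 κ l) (U G : Submodule κ C) (hUf : FiniteDimensional κ U)
    (hGf : FiniteDimensional κ G) (hUN : finrank κ U ≤ N) (hGg : finrank κ G ≤ g)
    (hU1 : (1 : C) ∈ U) :
      ((Finset.univ.filter fun s : Fin k → Fin n => ∃ P : MvPolynomial (Fin k) C,
        (∀ m, P.coeff m ∈ U) ∧ (∀ m ∈ P.support, Allowed D m) ∧
        MvPolynomial.eval (fun i => l (s i)) P ∈ L ⊔ G ∧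
        ∃ m ∈ P.support, 2 ≤ m.support.card).card : ℝ) ≤
      (KK (D - 1) N g k + 1 : ℝ) * (n : ℝ) ^ ((k : ℝ) - 1 / (((D - 1) * N + 1 : ℕ) : ℝ)) := by
  obtain ⟨E, rfl⟩ : ∃ E, D = E + 1 := ⟨D - 1, by omega⟩
  rw [Nat.add_sub_cancel]
  have hnn : (0 : ℝ) ≤ (KK E N g k + 1 : ℝ) := by positivity
  rcases k with _ | k
  · have h0 : (Finset.univ.filter fun s : Fin 0 → Fin n => ∃ P : MvPolynomial (Fin 0) C,
        (∀ m, P.coeff m ∈ U) ∧ (∀ m ∈ P.support, Allowed (E + 1) m) ∧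
        MvPolynomial.eval (fun i => l (s i)) P ∈ L ⊔ G ∧
        ∃ m ∈ P.support, 2 ≤ m.support.card).card = 0 := by
      rw [Finset.card_eq_zero, Finset.filter_eq_empty_iff]
      rintro s - ⟨P, -, -, -, m, -, hm⟩
      have : m.support.card ≤ Fintype.card (Fin 0) := Finset.card_le_univ _
      rw [Fintype.card_fin] at this
      omega
    rw [h0, Nat.cast_zero]
    exact mul_nonneg hnn (Real.rpow_nonneg (Nat.cast_nonneg n) _)
  rcases Nat.eq_zero_or_pos n with rfl | hn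
  · have h0 : (Finset.univ.filter fun s : Fin (k + 1) → Fin 0 => ∃ P : MvPolynomial (Fin (k + 1)) C,
        (∀ m, P.coeff m ∈ U) ∧ (∀ m ∈ P.support, Allowed (E + 1) m) ∧
        MvPolynomial.eval (fun i => l (s i)) P ∈ L ⊔ G ∧
        ∃ m ∈ P.support, 2 ≤ m.support.card).card = 0 := by
      rw [Finset.card_eq_zero, Finset.filter_eq_empty_iff]
      intro s
      exact (s 0).elim0
    rw [h0, Nat.cast_zero]
    exact mul_nonneg hnn (Real.rpow_nonneg (le_refl 0) _)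
  · have h1 := count_all hyp h1L l hl hli U G hUf hGf hU1 E N g hUN hGg k (dK k E N g) le_rfl
    rw [Fintype.card_fin] at h1
    refine real_bound' (Nat.succ_pos _) hn (le_trans (Nat.mul_le_mul_right n
      (Nat.pow_le_pow_left (Finset.card_le_card ?_) _)) h1)
    intro s hs
    rw [Finset.mem_filter] at hs ⊢
    obtain ⟨-, P, h2, h3, h4, h5⟩ := hs
    exact ⟨Finset.mem_univ _, relAt_of_poly U _ l s P h2 h3 h4 h5⟩

end Pool.Agent.TH812.SF
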