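import Pool.Agent.TH812.SF.Count

/-!
# Relations with squarefree mixed monomials and arbitrary pure powers: all places
-/

set_option autoImplicit false

namespace Pool.Agent.TH812.SF

open Module Finset

variable {κ C : Type} [Field κ] [Field C] [Algebra κ C]

theorem relAt_equiv {σ τ ι : Type} [Fintype σ] [Fintype τ] {U V : Submodule κ C} {E : ℕ}
    {v : ι → C} (e : σ ≃ τ) {s : τ → ι} {i : τ} (h : RelAt U V E v s i) :
    RelAt U V E v (s ∘ e) (e.symm i) := by
  classical
  obtain ⟨u, f, hu, hf, hsum, A, hiA, hA2, hAu⟩ := h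
  have h0 : ∀ A : Finset τ, (A.map e.symm.toEmbedding).map e.toEmbedding = A := by
    intro A
    ext i
    simp
  refine ⟨fun A => u (A.map e.toEmbedding), fun j b => f (e j) b, fun A => hu _,
    fun j b => hf _ _, ?_, A.map e.symm.toEmbedding, ?_, ?_, ?_⟩
  · have h2 : ∑ A, u A * mon v s A = ∑ A, u (A.map e.toEmbedding) * mon v (s ∘ e) A := by
      rw [← sum_map e]
      refine Finset.sum_congr rfl fun A _ => ?_
      rw [mon_map]
    have h3 : ∑ i, ∑ b : Fin E, f i b * v (s i) ^ ((b : ℕ) + 2) =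
        ∑ j, ∑ b : Fin E, f (e j) b * v ((s ∘ e) j) ^ ((b : ℕ) + 2) :=
      (Equiv.sum_comp e (fun i => ∑ b : Fin E, f i b * v (s i) ^ ((b : ℕ) + 2))).symm
    rw [h2, h3] at hsum
    exact hsum
  · rw [Finset.mem_map]
    exact ⟨i, hiA, rfl⟩
  · rwa [Finset.card_map]
  · simp only [h0]
    exact hAu

open Classical in
/-- **Almost no tuple has a relation in which a mixed monomial occurs.** -/
theorem count_all {L : Submodule κ C} (hyp : Hyp L) (h1 : (1 : C) ∈ L) {ι : Type} [Fintype ι]
    (v : ι → C) (hv : ∀ i, v i ∈ L) (hli : Ind1 κ v) (U G : Submodule κ C)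
    (hUf : FiniteDimensional κ U) (hGf : FiniteDimensional κ G) (hU : (1 : C) ∈ U) (E N g : ℕ)
    (hN : finrank κ U ≤ N) (hg : finrank κ G ≤ g) (k d : ℕ)
    (hd : 2 ^ ((E * N + 1) * k) * N + (E * N + 1) * k * E * N + g ≤ d) :
    (Finset.univ.filter fun s : Fin (k + 1) → ι => ∃ i, RelAt U (L ⊔ G) E v s i).card ^
        (E * N + 1) * Fintype.card ι ≤
      (k + 1) ^ (E * N + 1) * (d * (d - 1) + cst N g ((E * N + 1) * k)) *
        Fintype.card ι ^ ((E * N + 1) * (k + 1)) := by
  have h2 := count_none hyp h1 (σ := Fin k) v hv hli U G hUf hGf hU E N g hN hg k d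
    (Fintype.card_fin k) hd
  generalize hM : (Finset.univ.filter fun s : Option (Fin k) → ι =>
    RelAt U (L ⊔ G) E v s none).card = M at h2
  have h3 : ∀ i : Fin (k + 1), (Finset.univ.filter fun s : Fin (k + 1) → ι =>
      RelAt U (L ⊔ G) E v s i).card ≤ M := by
    intro i
    rw [← hM]
    refine Finset.card_le_card_of_injOn (fun s => s ∘ (finSuccEquiv' i).symm) ?_ ?_
    · intro s hs
      rw [Finset.mem_coe, Finset.mem_filter] at hs ⊢
      refine ⟨Finset.mem_univ _, ?_⟩
      have := relAt_equiv (finSuccEquiv' i).symm hs.2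
      rwa [Equiv.symm_symm, finSuccEquiv'_at] at this
    · intro s _ t _ hst
      have := congrArg (fun w => w ∘ (finSuccEquiv' i)) hst
      simpa [Function.comp_assoc] using this
  have h4 : (Finset.univ.filter fun s : Fin (k + 1) → ι => ∃ i, RelAt U (L ⊔ G) E v s i).card ≤
      (k + 1) * M := by
    have h5 : (Finset.univ.filter fun s : Fin (k + 1) → ι => ∃ i, RelAt U (L ⊔ G) E v s i) ⊆
        Finset.univ.biUnion fun i => (Finset.univ.filter fun s : Fin (k + 1) → ι =>
          RelAt U (L ⊔ G) E v s i) := by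
      intro s hs
      rw [Finset.mem_filter] at hs
      obtain ⟨-, i, hi⟩ := hs
      rw [Finset.mem_biUnion]
      exact ⟨i, Finset.mem_univ _, Finset.mem_filter.mpr ⟨Finset.mem_univ _, hi⟩⟩
    refine (Finset.card_le_card h5).trans (Finset.card_biUnion_le.trans ?_)
    refine (Finset.sum_le_sum fun i _ => h3 i).trans ?_
    rw [Finset.sum_const, Finset.card_univ, Fintype.card_fin, smul_eq_mul]
  refine (Nat.mul_le_mul_right _ (Nat.pow_le_pow_left h4 _)).trans ?_
  rw [mul_pow, mul_assoc, mul_assoc]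
  exact Nat.mul_le_mul_left _ h2

end Pool.Agent.TH812.SF
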