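import Pool.Agent.TH812.SF.Dens

/-!
# Relations with squarefree mixed monomials and arbitrary pure powers
-/

set_option autoImplicit false

namespace Pool.Agent.TH812.SF

open Module Finset

variable {κ C : Type} [Field κ] [Field C] [Algebra κ C]

/-- there is a relation, with pure powers of exponent at most `E + 1`, in which a mixed monomial
containing the `i`-th variable occurs -/
def RelAt {σ ι : Type} [Fintype σ] (U V : Submodule κ C) (E : ℕ) (v : ι → C) (s : σ → ι) (i : σ) :
    Prop :=
  ∃ (u : Finset σ → C) (f : σ → Fin E → C), (∀ A, u A ∈ U) ∧ (∀ i b, f i b ∈ U) ∧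
    (∑ A, u A * mon v s A + ∑ i, ∑ b : Fin E, f i b * v (s i) ^ ((b : ℕ) + 2) ∈ V) ∧
    ∃ A, i ∈ A ∧ 2 ≤ A.card ∧ u A ≠ 0

/-- the embedding of a block -/
def emb {β σ : Type} (a : β) : σ ↪ β × σ := ⟨fun i => (a, i), fun _ _ h => congrArg Prod.snd h⟩

theorem mon_emb {β σ ι : Type} (v : ι → C) (S : β × σ → ι) (a : β) (A : Finset σ) :
    mon v (fun i => S (a, i)) A = mon v S (A.map (emb a)) := by
  unfold mon
  rw [Finset.prod_map]
  rfl

theorem map_emb_eq {β σ : Type} {a a' : β} {A A' : Finset σ} (hA : A.Nonempty)
    (h : A'.map (emb a') = A.map (emb a)) : a' = a ∧ A' = A := by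
  obtain ⟨i, hi⟩ := hA
  have h1 : (a, i) ∈ A'.map (emb a') := by
    rw [h]; exact Finset.mem_map_of_mem (emb a) hi
  obtain ⟨i', _, h2⟩ := Finset.mem_map.mp h1
  have h3 : a' = a := congrArg Prod.fst h2
  subst h3
  exact ⟨rfl, Finset.map_injective _ h⟩

/-- pure powers -/
noncomputable def Psi {σ ι : Type} [Fintype σ] (U : Submodule κ C) (E : ℕ) (v : ι → C) (s : σ → ι) :
    (σ × Fin E → U) →ₗ[κ] C where
  toFun u := ∑ p, (u p : C) * v (s p.1) ^ ((p.2 : ℕ) + 2)
  map_add' u u' := by
    simp only [Pi.add_apply, Submodule.coe_add, add_mul, Finset.sum_add_distrib]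
  map_smul' c u := by
    simp only [Pi.smul_apply, Submodule.coe_smul, smul_mul_assoc, RingHom.id_apply, Finset.smul_sum]

theorem finrank_Psi {σ ι : Type} [Fintype σ] (U : Submodule κ C) [FiniteDimensional κ U] (E : ℕ)
    (v : ι → C) (s : σ → ι) :
    finrank κ (LinearMap.range (Psi U E v s)) ≤ Fintype.card σ * E * finrank κ U := by
  have h1 := LinearMap.finrank_range_le (Psi U E v s)
  rw [Module.finrank_pi_fintype] at h1
  simpa using h1

theorem mem_Phi_one {σ ι : Type} [Fintype σ] [DecidableEq σ] {U : Submodule κ C} (v : ι → C)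
    (s : σ → ι) {w : C} (hw : w ∈ U) (B : Finset σ) :
    w * mon v s B ∈ LinearMap.range (Phi U v s) := by
  classical
  have h1 := Phi_mem (κ := κ) (U := U) v s (fun A => if A = B then w else 0) (by
    intro A
    by_cases h : A = B
    · rw [if_pos h]; exact hw
    · rw [if_neg h]; exact U.zero_mem)
  have h2 : ∑ A, (if A = B then w else 0) * mon v s A = w * mon v s B := by
    rw [Finset.sum_eq_single B]
    · rw [if_pos rfl]
    · intro A _ hA
      rw [if_neg hA, zero_mul]
    · intro hh; exact absurd (Finset.mem_univ _) hh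
  rwa [h2] at h1

theorem mem_Psi_one {σ ι : Type} [Fintype σ] [DecidableEq σ] {U : Submodule κ C} {E : ℕ}
    (v : ι → C) (s : σ → ι) {w : C} (hw : w ∈ U) (i : σ) (b : Fin E) :
    w * v (s i) ^ ((b : ℕ) + 2) ∈ LinearMap.range (Psi U E v s) := by
  classical
  refine ⟨fun p => if p = (i, b) then ⟨w, hw⟩ else 0, ?_⟩
  change ∑ p : σ × Fin E, (((if p = (i, b) then (⟨w, hw⟩ : U) else 0 : U)) : C) *
    v (s p.1) ^ ((p.2 : ℕ) + 2) = _
  rw [Finset.sum_eq_single (i, b)]
  · rw [if_pos rfl]
  · intro p _ hp
    rw [if_neg hp]; simp
  · intro hh; exact absurd (Finset.mem_univ _) hh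

/-- **The block lemma.** -/
theorem block {L : Submodule κ C} (hyp : Hyp L) (h1 : (1 : C) ∈ L) {β σ ι : Type} [Fintype β]
    [DecidableEq β] [Fintype σ] [DecidableEq σ] [Fintype ι] [DecidableEq ι]
    (v : ι → C) (hv : ∀ i, v i ∈ L) (hli : Ind1 κ v) (U G : Submodule κ C)
    [FiniteDimensional κ U] [FiniteDimensional κ G] (hU : (1 : C) ∈ U) (E : ℕ) (S : β × σ → ι)
    (hS : Good U (L ⊔ G) v S) (N g : ℕ) (hN : finrank κ U ≤ N) (hg : finrank κ G ≤ g)
    (hβ : E * N < Fintype.card β)
    (J : Finset ι) (hJ : ∀ j ∈ J, ∀ a, RelAt U (L ⊔ G) E v (ext (fun i => S (a, i)) j) none)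
    (d : ℕ) (hd : 2 ^ (Fintype.card β * Fintype.card σ) * N +
      Fintype.card β * Fintype.card σ * E * N + g ≤ d) :
    J.card ≤ d * (d - 1) := by
  classical
  set V := L ⊔ G with hV
  have hLV : L ≤ V := le_sup_left
  have hone : (1 : Submodule κ C) ≤ V := (Submodule.one_le.mpr h1).trans hLV
  have hone' : (1 : Submodule κ C) ≤ U := Submodule.one_le.mpr hU
  choose! u f hu hf hsum A₀ hA₀ hA₀c hA₀u using hJ
  -- the combination which removes the pure powers
  have hker : ∀ j ∈ J, ∃ w : β → κ, w ≠ 0 ∧ ∀ b : Fin E,
      ∑ a, algebraMap κ C (w a) * f j a none b = 0 := by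
    intro j hj
    let T : (β → κ) →ₗ[κ] (Fin E → U) :=
      { toFun := fun w b => ∑ a, w a • (⟨f j a none b, hf j hj a none b⟩ : U)
        map_add' := by
          intro w w'
          funext b
          simp only [Pi.add_apply, add_smul, Finset.sum_add_distrib]
        map_smul' := by
          intro c w
          funext b
          simp only [Pi.smul_apply, smul_eq_mul, mul_smul, RingHom.id_apply, Finset.smul_sum] }
    have h2 : finrank κ (Fin E → U) < finrank κ (β → κ) := by
      rw [Module.finrank_pi_fintype, Module.finrank_fintype_fun_eq_card]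
      simp only [Finset.sum_const, Finset.card_univ, Fintype.card_fin, smul_eq_mul]
      exact lt_of_le_of_lt (Nat.mul_le_mul_left _ hN) hβ
    have h3 := LinearMap.ker_ne_bot_of_finrank_lt (f := T) h2
    obtain ⟨w, hw, hw0⟩ := (Submodule.ne_bot_iff _).mp h3
    refine ⟨w, hw0, fun b => ?_⟩
    have h4 := congrFun (LinearMap.mem_ker.mp hw) b
    have h5 := congrArg (Submodule.subtype U) h4
    change (Submodule.subtype U) (∑ a, w a • (⟨f j a none b, hf j hj a none b⟩ : U)) =
      (Submodule.subtype U) 0 at h5
    rw [map_sum, map_zero] at h5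
    rw [← h5]
    apply Finset.sum_congr rfl
    intro a _
    rw [map_smul, Algebra.smul_def]
    rfl
  choose! w hw0 hw using hker
  let X : Submodule κ C := (LinearMap.range (Phi U v S) ⊔ LinearMap.range (Psi U E v S)) ⊔ G
  have hXf : FiniteDimensional κ X := by infer_instance
  have hX : finrank κ X ≤ d := by
    have h2 : finrank κ X ≤ finrank κ (LinearMap.range (Phi U v S) ⊔
        LinearMap.range (Psi U E v S) : Submodule κ C) + finrank κ G :=
      Submodule.finrank_add_le_finrank_add_finrank _ G
    have h3 := Submodule.finrank_add_le_finrank_add_finrank (LinearMap.range (Phi U v S))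
      (LinearMap.range (Psi U E v S))
    have h4 := finrank_Phi U v S
    have h5 := finrank_Psi U E v S
    rw [Fintype.card_prod] at h4 h5
    have h6 : 2 ^ (Fintype.card β * Fintype.card σ) * finrank κ U ≤
      2 ^ (Fintype.card β * Fintype.card σ) * N := Nat.mul_le_mul_left _ hN
    have h7 : Fintype.card β * Fintype.card σ * E * finrank κ U ≤
      Fintype.card β * Fintype.card σ * E * N := Nat.mul_le_mul_left _ hN
    omega
  have hPX : ∀ {c : C}, c ∈ U → ∀ B, c * mon v S B ∈ X := fun hc B =>
    Submodule.mem_sup_left (Submodule.mem_sup_left (mem_Phi_one v S hc B))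
  have hQX : ∀ {c : C}, c ∈ U → ∀ p (b : Fin E), c * v (S p) ^ ((b : ℕ) + 2) ∈ X := fun hc p b =>
    Submodule.mem_sup_left (Submodule.mem_sup_right (mem_Psi_one v S hc p b))
  have h1X : (1 : C) ∈ X := by
    have := hPX hU ∅
    simpa [mon] using this
  have hwU : ∀ j a {c : C}, c ∈ U → algebraMap κ C (w j a) * c ∈ U := by
    intro j a c hc
    rw [← Algebra.smul_def]
    exact U.smul_mem _ hc
  let up : ι → β → Finset σ → C := fun j a A =>
    algebraMap κ C (w j a) * u j a (insert none (A.map Function.Embedding.some))
  let z : ι → C := fun j => ∑ a, ∑ A : Finset σ, up j a A * mon v S (A.map (emb a))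
  let r : ι → C := fun j => ∑ a, algebraMap κ C (w j a) *
    (∑ A : Finset σ, u j a (A.map Function.Embedding.some) * mon v S (A.map (emb a)) +
      ∑ i, ∑ b : Fin E, f j a (some i) b * v (S (a, i)) ^ ((b : ℕ) + 2))
  have hup : ∀ j ∈ J, ∀ a A, up j a A ∈ U := fun j hj a A => hwU j a (hu j hj a _)
  -- the relation
  have hrel : ∀ j ∈ J, z j * v j + r j ∈ V := by
    intro j hj
    have h2 : z j * v j + r j = ∑ a, algebraMap κ C (w j a) *
        (∑ A, u j a A * mon v (ext (fun i => S (a, i)) j) A +
          ∑ i, ∑ b : Fin E, f j a i b * v (ext (fun i => S (a, i)) j i) ^ ((b : ℕ) + 2)) := by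
      have h3 : ∀ a, (∑ A, u j a A * mon v (ext (fun i => S (a, i)) j) A +
          ∑ i, ∑ b : Fin E, f j a i b * v (ext (fun i => S (a, i)) j i) ^ ((b : ℕ) + 2)) =
          (∑ A : Finset σ, u j a (insert none (A.map Function.Embedding.some)) *
            mon v S (A.map (emb a))) * v j +
          (∑ A : Finset σ, u j a (A.map Function.Embedding.some) * mon v S (A.map (emb a)) +
            ∑ i, ∑ b : Fin E, f j a (some i) b * v (S (a, i)) ^ ((b : ℕ) + 2)) +
          ∑ b : Fin E, f j a none b * v j ^ ((b : ℕ) + 2) := by
        intro a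
        rw [sum_option, Fintype.sum_option]
        simp only [mon_map_some, mon_insert_none, mon_emb, ext_none, ext_some]
        have h4 : ∑ A : Finset σ, u j a (insert none (A.map Function.Embedding.some)) *
            (v j * mon v S (A.map (emb a))) = (∑ A : Finset σ,
            u j a (insert none (A.map Function.Embedding.some)) * mon v S (A.map (emb a))) * v j := by
          rw [Finset.sum_mul]
          apply Finset.sum_congr rfl
          intro A _
          ring
        rw [h4]
        ring
      simp only [h3]
      have h5 : ∑ a, algebraMap κ C (w j a) * ∑ b : Fin E, f j a none b * v j ^ ((b : ℕ) + 2) = 0 := by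
        simp only [Finset.mul_sum]
        rw [Finset.sum_comm]
        apply Finset.sum_eq_zero
        intro b _
        have h6 := hw j hj b
        calc ∑ a, algebraMap κ C (w j a) * (f j a none b * v j ^ ((b : ℕ) + 2))
            = (∑ a, algebraMap κ C (w j a) * f j a none b) * v j ^ ((b : ℕ) + 2) := by
              rw [Finset.sum_mul]
              apply Finset.sum_congr rfl
              intro a _
              ring
          _ = 0 := by rw [h6, zero_mul]
      have h7 : ∀ a, algebraMap κ C (w j a) *
          ((∑ A : Finset σ, u j a (insert none (A.map Function.Embedding.some)) *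
            mon v S (A.map (emb a))) * v j +
          (∑ A : Finset σ, u j a (A.map Function.Embedding.some) * mon v S (A.map (emb a)) +
            ∑ i, ∑ b : Fin E, f j a (some i) b * v (S (a, i)) ^ ((b : ℕ) + 2)) +
          ∑ b : Fin E, f j a none b * v j ^ ((b : ℕ) + 2)) =
          (∑ A : Finset σ, up j a A * mon v S (A.map (emb a))) * v j + algebraMap κ C (w j a) *
            (∑ A : Finset σ, u j a (A.map Function.Embedding.some) * mon v S (A.map (emb a)) +
            ∑ i, ∑ b : Fin E, f j a (some i) b * v (S (a, i)) ^ ((b : ℕ) + 2)) +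
          algebraMap κ C (w j a) * ∑ b : Fin E, f j a none b * v j ^ ((b : ℕ) + 2) := by
        intro a
        have h8 : ∑ A : Finset σ, up j a A * mon v S (A.map (emb a)) = algebraMap κ C (w j a) *
            ∑ A : Finset σ, u j a (insert none (A.map Function.Embedding.some)) *
            mon v S (A.map (emb a)) := by
          rw [Finset.mul_sum]
          apply Finset.sum_congr rfl
          intro A _
          simp only [up]
          ring
        rw [h8]
        ring
      simp only [h7, Finset.sum_add_distrib]
      rw [h5, add_zero, ← Finset.sum_mul]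
    rw [h2]
    apply Submodule.sum_mem
    intro a _
    rw [← Algebra.smul_def]
    exact V.smul_mem _ (hsum j hj a)
  have hdec : ∀ j ∈ J, ∃ ℓ ∈ L, ∃ γ ∈ G, ℓ + γ = z j * v j + r j :=
    fun j hj => Submodule.mem_sup.mp (hrel j hj)
  choose! ℓ hℓ γ hγ hsum' using hdec
  have hzX : ∀ j ∈ J, z j ∈ X := by
    intro j hj
    apply Submodule.sum_mem; intro a _
    apply Submodule.sum_mem; intro A _
    exact hPX (hup j hj a A) _
  have hrX : ∀ j ∈ J, r j ∈ X := by
    intro j hj
    apply Submodule.sum_mem; intro a _
    rw [← Algebra.smul_def]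
    apply X.smul_mem
    apply X.add_mem
    · apply Submodule.sum_mem; intro A _
      exact hPX (hu j hj a _) _
    · apply Submodule.sum_mem; intro i _
      apply Submodule.sum_mem; intro b _
      exact hQX (hf j hj a _ _) _ _
  have hz1 : ∀ j ∈ J, z j ∉ (1 : Submodule κ C) := by
    intro j hj hz
    let c : Finset (β × σ) → C := fun B => ∑ a, ∑ A : Finset σ,
      if A.map (emb a) = B then up j a A else 0
    have hc : ∀ B, c B ∈ U := by
      intro B
      apply Submodule.sum_mem; intro a _
      apply Submodule.sum_mem; intro A _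
      split_ifs
      · exact hup j hj a A
      · exact U.zero_mem
    have hzc : ∑ B, c B * mon v S B = z j := by
      simp only [c, z, Finset.sum_mul]
      rw [Finset.sum_comm]
      apply Finset.sum_congr rfl
      intro a _
      rw [Finset.sum_comm]
      apply Finset.sum_congr rfl
      intro A _
      rw [Finset.sum_eq_single (A.map (emb a))]
      · rw [if_pos rfl]
      · intro B _ hB
        rw [if_neg (fun h => hB h.symm), zero_mul]
      · intro hh; exact absurd (Finset.mem_univ _) hh
    have hcA : ∀ a (A : Finset σ), A.Nonempty → c (A.map (emb a)) = up j a A := by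
      intro a A hA
      simp only [c]
      rw [Finset.sum_eq_single a]
      · rw [Finset.sum_eq_single A]
        · rw [if_pos rfl]
        · intro A' _ hA'
          rw [if_neg]
          intro h
          exact hA' (map_emb_eq hA h).2
        · intro hh; exact absurd (Finset.mem_univ _) hh
      · intro a' _ ha'
        apply Finset.sum_eq_zero
        intro A' _
        rw [if_neg]
        intro h
        exact ha' (map_emb_eq hA h).1
      · intro hh; exact absurd (Finset.mem_univ _) hh
    obtain ⟨e1, e2⟩ := hS.1 c hc (by rw [hzc]; exact hone hz)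
    choose q hq using fun p => Submodule.mem_one.mp (e2 p)
    have e3 : z j = c ∅ + ∑ p, algebraMap κ C (q p) * v (S p) := by
      rw [← hzc]
      have h2 : ∑ B, c B * mon v S B = ∑ B : Finset (β × σ), if B.card ≤ 1 then
          c B * mon v S B else 0 := by
        apply Finset.sum_congr rfl
        intro B _
        split_ifs with hB
        · rfl
        · rw [e1 B (by omega), zero_mul]
      rw [h2, ← Finset.sum_filter]
      have h3 : (Finset.univ : Finset (Finset (β × σ))).filter (fun A => A.card ≤ 1) =
          insert ∅ ((Finset.univ : Finset (β × σ)).image (fun i => {i})) := by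
        ext A
        simp only [Finset.mem_filter, Finset.mem_univ, true_and, Finset.mem_insert,
          Finset.mem_image]
        constructor
        · intro hA
          rcases Nat.lt_or_ge A.card 1 with h4 | h4
          · left; exact Finset.card_eq_zero.mp (by omega)
          · right
            obtain ⟨i, hi⟩ := Finset.card_eq_one.mp (le_antisymm hA h4)
            exact ⟨i, hi.symm⟩
        · rintro (rfl | ⟨i, rfl⟩)
          · simp
          · simp
      rw [h3, Finset.sum_insert (by simp), Finset.sum_image (fun i _ i' _ h => by simpa using h)]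
      congr 1
      · simp [mon]
      · apply Finset.sum_congr rfl
        intro p _
        rw [hq p]
        simp [mon]
    have e4 : q = 0 := by
      apply hS.2
      have : ∑ p, algebraMap κ C (q p) * v (S p) = z j - c ∅ := by rw [e3]; ring
      rw [this]
      exact U.sub_mem (hone' hz) (hc _)
    have e5 : ∀ B : Finset (β × σ), B.Nonempty → c B = 0 := by
      intro B hB
      rcases Nat.lt_or_ge B.card 2 with h2 | h2
      · have h3 : B.card = 1 := by
          have := Finset.card_pos.mpr hB
          omega
        obtain ⟨p, hp⟩ := Finset.card_eq_one.mp h3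
        rw [hp, ← hq p, e4]
        simp
      · exact e1 B h2
    obtain ⟨a, ha⟩ := Function.ne_iff.mp (hw0 j hj)
    have e6 : ∀ A : Finset σ, A.Nonempty →
        u j a (insert none (A.map Function.Embedding.some)) = 0 := by
      intro A hA
      have h2 := e5 (A.map (emb a)) (hA.map)
      rw [hcA a A hA] at h2
      have h3 : algebraMap κ C (w j a) ≠ 0 := by
        intro h
        apply ha
        exact (map_eq_zero_iff _ (algebraMap κ C).injective).mp h
      exact (mul_eq_zero.mp h2).resolve_left h3
    have hn := hA₀ j hj a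
    have hA' : A₀ j a = insert none ((Finset.eraseNone (A₀ j a)).map Function.Embedding.some) := by
      rw [Finset.map_some_eraseNone, Finset.insert_erase hn]
    have h4 : (A₀ j a).card = (Finset.eraseNone (A₀ j a)).card + 1 := by
      conv_lhs => rw [hA']
      rw [Finset.card_insert_of_notMem (by simp), Finset.card_map]
    have h5 := hA₀c j hj a
    have h6 : (Finset.eraseNone (A₀ j a)).Nonempty := by
      rw [← Finset.card_pos]; omega
    apply hA₀u j hj a
    rw [hA']
    exact e6 _ h6
  have hfin := key hyp h1 v hv hli X h1X J z (fun j => r j - γ j) hzX hz1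
    (fun j hj => X.sub_mem (hrX j hj) (Submodule.mem_sup_right (hγ j hj)))
    (by
      intro j hj
      have h2 : z j * v j + (r j - γ j) = ℓ j := by
        have h3 := hsum' j hj
        linear_combination -h3
      rw [h2]
      exact hℓ j hj)
  exact hfin.trans (Nat.mul_le_mul hX (Nat.sub_le_sub_right hX 1))

end Pool.Agent.TH812.SF
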