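import Pool.Agent.TH812.SF.Block

/-!
# Relations with squarefree mixed monomials and arbitrary pure powers: counting
-/

set_option autoImplicit false

namespace Pool.Agent.TH812.SF

open Module Finset

variable {κ C : Type} [Field κ] [Field C] [Algebra κ C]

/-- power means for natural numbers -/
theorem power_mean {ι : Type} [Fintype ι] (f : ι → ℕ) (m : ℕ) :
    (∑ i, f i) ^ (m + 1) ≤ Fintype.card ι ^ m * ∑ i, f i ^ (m + 1) := by
  rcases Nat.eq_zero_or_pos (Fintype.card ι) with h0 | h0
  · have : IsEmpty ι := Fintype.card_eq_zero_iff.mp h0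
    simp
  have h1 := pow_sum_div_card_le_sum_pow (s := (Finset.univ : Finset ι)) (f := fun i => (f i : ℝ))
    (fun i _ => Nat.cast_nonneg _) m
  rw [Finset.card_univ, div_le_iff₀ (by positivity)] at h1
  have h2 : (((∑ i, f i) ^ (m + 1) : ℕ) : ℝ) ≤
      ((Fintype.card ι ^ m * ∑ i, f i ^ (m + 1) : ℕ) : ℝ) := by
    push_cast
    rw [mul_comm]
    exact h1
  exact_mod_cast h2

open Classical in
/-- counting tuples with a relation at the last place -/
theorem count_none {L : Submodule κ C} (hyp : Hyp L) (h1 : (1 : C) ∈ L) {σ ι : Type}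
    [Fintype σ] [DecidableEq σ] [Fintype ι]
    (v : ι → C) (hv : ∀ i, v i ∈ L) (hli : Ind1 κ v) (U G : Submodule κ C)
    (hUf : FiniteDimensional κ U) (hGf : FiniteDimensional κ G) (hU : (1 : C) ∈ U) (E N g : ℕ)
    (hN : finrank κ U ≤ N) (hg : finrank κ G ≤ g) (k d : ℕ) (hk : Fintype.card σ = k)
    (hd : 2 ^ ((E * N + 1) * k) * N + (E * N + 1) * k * E * N + g ≤ d) :
    (Finset.univ.filter fun s : Option σ → ι => RelAt U (L ⊔ G) E v s none).card ^ (E * N + 1) *
      Fintype.card ι ≤
    (d * (d - 1) + cst N g ((E * N + 1) * k)) * Fintype.card ι ^ ((E * N + 1) * (k + 1)) := by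
  set n := Fintype.card ι with hn
  set V := L ⊔ G with hV
  let dg : ι → ℕ := fun j =>
    (Finset.univ.filter fun s : σ → ι => RelAt U V E v (ext s j) none).card
  have hsum : (Finset.univ.filter fun s : Option σ → ι => RelAt U V E v s none).card = ∑ j, dg j := by
    simp only [dg, Finset.card_filter]
    rw [← Finset.sum_product']
    refine Finset.sum_bij' (fun s _ => (s none, fun i => s (some i)))
      (fun p _ => ext p.2 p.1) ?_ ?_ ?_ ?_ ?_
    · intro s _; simp
    · intro p _; simp
    · intro s _
      funext o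
      rcases o with _ | i <;> rfl
    · intro p _; rfl
    · intro s _
      have : ext (fun i => s (some i)) (s none) = s := by
        funext o
        rcases o with _ | i <;> rfl
      simp only [this]
  -- the power
  have hpow : ∑ j, dg j ^ (E * N + 1) ≤ (d * (d - 1) + cst N g ((E * N + 1) * k)) *
      n ^ ((E * N + 1) * k) := by
    have h2 : ∀ j, dg j ^ (E * N + 1) = (Finset.univ.filter fun S : Fin (E * N + 1) × σ → ι =>
        ∀ a, RelAt U V E v (ext (fun i => S (a, i)) j) none).card := by
      intro j
      have h3 : dg j ^ (E * N + 1) = (Fintype.piFinset fun _ : Fin (E * N + 1) =>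
          (Finset.univ.filter fun s : σ → ι => RelAt U V E v (ext s j) none)).card := by
        rw [Fintype.card_piFinset, Finset.prod_const, Finset.card_univ, Fintype.card_fin]
      rw [h3]
      refine Finset.card_bij' (fun S _ => fun p => S p.1 p.2) (fun S _ => fun a i => S (a, i))
        ?_ ?_ ?_ ?_
      · intro S hS
        rw [Finset.mem_filter]
        refine ⟨Finset.mem_univ _, fun a => ?_⟩
        rw [Fintype.mem_piFinset] at hS
        exact (Finset.mem_filter.mp (hS a)).2
      · intro S hS
        rw [Fintype.mem_piFinset]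
        intro a
        rw [Finset.mem_filter]
        exact ⟨Finset.mem_univ _, (Finset.mem_filter.mp hS).2 a⟩
      · intro S _; rfl
      · intro S _; rfl
    simp only [h2, Finset.card_filter]
    rw [Finset.sum_comm]
    have h4 : ∀ S : Fin (E * N + 1) × σ → ι,
        (∑ j, if ∀ a, RelAt U V E v (ext (fun i => S (a, i)) j) none then 1 else 0) ≤
        d * (d - 1) + (if ¬ Good U V v S then 1 else 0) * n := by
      intro S
      rw [← Finset.card_filter]
      by_cases hg' : Good U V v S
      · have h5 := block hyp h1 v hv hli U G hU E S hg' N g hN hg (by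
          rw [Fintype.card_fin]; exact Nat.lt_succ_self _)
          (Finset.univ.filter fun j => ∀ a, RelAt U V E v (ext (fun i => S (a, i)) j) none)
          (fun j hj => (Finset.mem_filter.mp hj).2) d (by
            rw [Fintype.card_fin, hk]; exact hd)
        exact h5.trans (Nat.le_add_right _ _)
      · rw [if_pos hg', one_mul]
        refine le_trans (Finset.card_le_univ _) ?_
        exact Nat.le_add_left _ _
    refine (Finset.sum_le_sum fun S _ => h4 S).trans ?_
    rw [Finset.sum_add_distrib, Finset.sum_const, Finset.card_univ, Fintype.card_fun,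
      Fintype.card_prod, Fintype.card_fin, hk, smul_eq_mul, ← Finset.sum_mul, ← Finset.card_filter]
    have h6 := dens hyp h1 (Fin (E * N + 1) × σ) N g ((E * N + 1) * k) (by
      rw [Fintype.card_prod, Fintype.card_fin, hk]) ι v hv hli U G hUf hGf hU hN hg
    rw [Fintype.card_prod, Fintype.card_fin, hk] at h6
    rw [Nat.add_mul (d * (d - 1)) (cst N g ((E * N + 1) * k)) _,
      Nat.mul_comm (n ^ ((E * N + 1) * k)) (d * (d - 1))]
    refine Nat.add_le_add_left ?_ _
    refine le_trans (Nat.mul_le_mul_right n (Finset.card_le_card ?_)) h6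
    intro S hS
    rw [Finset.mem_filter] at hS ⊢
    exact ⟨Finset.mem_univ _, hS.2⟩
  rw [hsum]
  calc (∑ j, dg j) ^ (E * N + 1) * n ≤ (n ^ (E * N) * ∑ j, dg j ^ (E * N + 1)) * n :=
        Nat.mul_le_mul_right _ (power_mean dg (E * N))
    _ ≤ (n ^ (E * N) * ((d * (d - 1) + cst N g ((E * N + 1) * k)) * n ^ ((E * N + 1) * k))) * n :=
        Nat.mul_le_mul_right _ (Nat.mul_le_mul_left _ hpow)
    _ = (d * (d - 1) + cst N g ((E * N + 1) * k)) * n ^ ((E * N + 1) * (k + 1)) := by
        rw [Nat.mul_add (E * N + 1) k 1, mul_one, pow_add n, pow_add n (E * N) 1, pow_one]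
        ring

end Pool.Agent.TH812.SF
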