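import Pool.Agent.TH812.SF.Good

/-!
# Squarefree relations: almost all tuples are good
-/

set_option autoImplicit false

namespace Pool.Agent.TH812.SF

open Module Finset

variable {κ C : Type} [Field κ] [Field C] [Algebra κ C]

theorem mon_map {σ τ ι : Type} (v : ι → C) (e : σ ≃ τ) (s : τ → ι) (A : Finset σ) :
    mon v (s ∘ e) A = mon v s (A.map e.toEmbedding) := by
  unfold mon
  rw [Finset.prod_map]
  rfl

theorem sum_map {σ τ : Type} [Fintype σ] [Fintype τ] (e : σ ≃ τ) (f : Finset τ → C) :
    ∑ A : Finset σ, f (A.map e.toEmbedding) = ∑ B, f B := by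
  classical
  exact (Equiv.sum_comp (Equiv.finsetCongr e) f)

theorem good_equiv {σ τ ι : Type} [Fintype σ] [Fintype τ] {U V : Submodule κ C} {v : ι → C}
    (e : σ ≃ τ) {s : τ → ι} (hs : Good U V v s) : Good U V v (s ∘ e) := by
  classical
  constructor
  · intro u hu hsum
    have h0 : ∀ A : Finset σ, (A.map e.toEmbedding).map e.symm.toEmbedding = A := by
      intro A
      ext i
      simp
    obtain ⟨h1, h2⟩ := hs.1 (fun B => u (B.map e.symm.toEmbedding)) (fun B => hu _) (by
      rw [← sum_map e]
      simp only [h0]
      simp only [mon_map] at hsum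
      exact hsum)
    constructor
    · intro A hA
      have := h1 (A.map e.toEmbedding) (by rwa [Finset.card_map])
      simpa only [h0] using this
    · intro i
      have := h2 (e i)
      simpa using this
  · intro q hq
    have h1 := hs.2 (fun t => q (e.symm t)) (by
      rw [← Equiv.sum_comp e]
      simpa using hq)
    funext i
    have := congrFun h1 (e i)
    simpa using this

open Classical in
/-- almost all tuples indexed by `σ` are good, with `K` depending only on the dimensions -/
def Dn (L : Submodule κ C) (σ : Type) [Fintype σ] [DecidableEq σ] (N g K : ℕ) : Prop :=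
  ∀ (ι : Type) [Fintype ι] (v : ι → C), (∀ i, v i ∈ L) → Ind1 κ v →
    ∀ U G : Submodule κ C, FiniteDimensional κ U → FiniteDimensional κ G → (1 : C) ∈ U →
      finrank κ U ≤ N → finrank κ G ≤ g →
      (Finset.univ.filter fun s : σ → ι => ¬ Good U (L ⊔ G) v s).card * Fintype.card ι ≤
        K * Fintype.card ι ^ Fintype.card σ

theorem Dn_equiv {L : Submodule κ C} {σ τ : Type} [Fintype σ] [Fintype τ] [DecidableEq σ]
    [DecidableEq τ] (e : σ ≃ τ) {N g K : ℕ}
    (h : Dn L σ N g K) : Dn L τ N g K := by
  classical
  intro ι _ v hv hli U G hUf hGf hU hN hg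
  have h1 := h ι v hv hli U G hUf hGf hU hN hg
  rw [Fintype.card_congr e] at h1
  refine le_trans (Nat.mul_le_mul_right _ ?_) h1
  refine Finset.card_le_card_of_injOn (fun s => s ∘ e) ?_ ?_
  · intro s hs
    simp only [Finset.coe_filter, Finset.mem_univ, true_and, Set.mem_ofPred_eq] at hs ⊢
    intro hg'
    apply hs
    have h2 := good_equiv e.symm hg'
    have h3 : (s ∘ e) ∘ e.symm = s := by
      funext t; simp
    rwa [h3] at h2
  · intro s _ s' _ hss
    funext t
    have := congrFun hss (e.symm t)
    simpa using this

/-- the constants -/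
def cst (N g : ℕ) : ℕ → ℕ
  | 0 => 0
  | k + 1 => cst N g k + (N + k + (2 ^ k * N + g) * (2 ^ k * N + g - 1))

theorem Dn_fin {L : Submodule κ C} (hyp : Hyp L) (h1 : (1 : C) ∈ L) (N g : ℕ) (k : ℕ) :
    Dn L (Fin k) N g (cst N g k) := by
  classical
  induction k with
  | zero =>
    intro ι _ v hv hli U G hUf hGf hU hN hg
    have h0 : (Finset.univ.filter fun s : Fin 0 → ι => ¬ Good U (L ⊔ G) v s) = ∅ := by
      rw [Finset.filter_eq_empty_iff]
      intro s _
      rw [not_not]
      refine ⟨fun u hu hsum => ⟨fun A hA => ?_, fun i => i.elim0⟩, fun q _ => ?_⟩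
      · have : A = ∅ := by
          ext i; exact i.elim0
        rw [this] at hA
        simp at hA
      · funext i; exact i.elim0
    rw [h0]
    simp
  | succ k ih =>
    refine Dn_equiv (finSuccEquiv k).symm (σ := Option (Fin k)) ?_
    intro ι _ v hv hli U G hUf hGf hU hN hg
    have h2 := ih ι v hv hli U G hUf hGf hU hN hg
    set M := N + k + (2 ^ k * N + g) * (2 ^ k * N + g - 1) with hM
    set n := Fintype.card ι with hn
    set B := (Finset.univ.filter fun s : Fin k → ι => ¬ Good U (L ⊔ G) v s) with hB
    -- the map to pairs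
    let φ : (Option (Fin k) → ι) → (Fin k → ι) × ι := fun s => (fun i => s (some i), s none)
    have hφ : Function.Injective φ := by
      intro s s' h
      have e1 := congrArg Prod.fst h
      have e2 := congrArg Prod.snd h
      funext o
      rcases o with _ | i
      · exact e2
      · exact congrFun e1 i
    have hext : ∀ s, ext (φ s).1 (φ s).2 = s := by
      intro s
      funext o
      rcases o with _ | i <;> rfl
    let T : Finset ((Fin k → ι) × ι) := (B ×ˢ Finset.univ) ∪
      (Finset.univ.filter fun p : (Fin k → ι) × ι => Good U (L ⊔ G) v p.1 ∧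
        ¬ Good U (L ⊔ G) v (ext p.1 p.2))
    have h3 : (Finset.univ.filter fun s : Option (Fin k) → ι => ¬ Good U (L ⊔ G) v s).card ≤
        T.card := by
      refine Finset.card_le_card_of_injOn φ ?_ (hφ.injOn)
      intro s hs
      simp only [Finset.coe_filter, Finset.mem_univ, true_and, Set.mem_ofPred_eq] at hs
      rw [Finset.mem_coe, Finset.mem_union, Finset.mem_product, hB, Finset.mem_filter,
        Finset.mem_filter]
      by_cases hg' : Good U (L ⊔ G) v (φ s).1
      · right
        refine ⟨Finset.mem_univ _, hg', ?_⟩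
        rw [hext]; exact hs
      · left
        exact ⟨⟨Finset.mem_univ _, hg'⟩, Finset.mem_univ _⟩
    have h4 : (Finset.univ.filter fun p : (Fin k → ι) × ι => Good U (L ⊔ G) v p.1 ∧
        ¬ Good U (L ⊔ G) v (ext p.1 p.2)).card ≤ n ^ k * M := by
      rw [Finset.card_filter]
      rw [Fintype.sum_prod_type]
      calc ∑ s : Fin k → ι, ∑ j : ι, (if Good U (L ⊔ G) v s ∧ ¬ Good U (L ⊔ G) v (ext s j) then 1 else 0)
          ≤ ∑ s : Fin k → ι, M := by
            apply Finset.sum_le_sum
            intro s _
            by_cases hg' : Good U (L ⊔ G) v s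
            · have h5 := step hyp h1 v hv hli U G hU s hg' N g hN hg
                (Finset.univ.filter fun j => ¬ Good U (L ⊔ G) v (ext s j))
                (fun j hj => (Finset.mem_filter.mp hj).2)
              rw [Fintype.card_fin] at h5
              rw [← Finset.card_filter]
              refine le_trans (Finset.card_le_card ?_) h5
              intro j hj
              rw [Finset.mem_filter] at hj ⊢
              exact ⟨hj.1, hj.2.2⟩
            · have : ∀ j : ι, (if Good U (L ⊔ G) v s ∧ ¬ Good U (L ⊔ G) v (ext s j) then 1 else 0) = 0 :=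
                fun j => if_neg (fun h => hg' h.1)
              simp only [this, Finset.sum_const_zero]
              exact Nat.zero_le _
        _ = n ^ k * M := by
            rw [Finset.sum_const, Finset.card_univ, Fintype.card_fun, Fintype.card_fin, smul_eq_mul]
    have h5 : T.card ≤ B.card * n + n ^ k * M := by
      refine (Finset.card_union_le _ _).trans (Nat.add_le_add ?_ h4)
      rw [Finset.card_product, Finset.card_univ]
    rw [Fintype.card_option, Fintype.card_fin]
    rw [Fintype.card_fin] at h2
    have h6 := h3.trans h5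
    calc (Finset.univ.filter fun s : Option (Fin k) → ι => ¬ Good U (L ⊔ G) v s).card * n
        ≤ (B.card * n + n ^ k * M) * n := Nat.mul_le_mul_right _ h6
      _ ≤ (cst N g k * n ^ k + n ^ k * M) * n := Nat.mul_le_mul_right _ (Nat.add_le_add_right h2 _)
      _ = cst N g (k + 1) * n ^ (k + 1) := by
          rw [cst, ← hM]; ring

/-- **Almost all tuples are good.** -/
theorem dens {L : Submodule κ C} (hyp : Hyp L) (h1 : (1 : C) ∈ L) (σ : Type) [Fintype σ]
    [DecidableEq σ] (N g k : ℕ) (hk : Fintype.card σ = k) : Dn L σ N g (cst N g k) :=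
  Dn_equiv (σ := Fin k) (Fintype.equivFinOfCardEq hk).symm (Dn_fin hyp h1 N g k)

end Pool.Agent.TH812.SF
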