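import Pool.Agent.TH812.SF.Key

/-!
# Squarefree relations: good tuples
-/

set_option autoImplicit false

namespace Pool.Agent.TH812.SF

open Module Finset

variable {κ C : Type*} [Field κ] [Field C] [Algebra κ C]

/-- squarefree monomial -/
def mon {σ ι : Type*} (v : ι → C) (s : σ → ι) (A : Finset σ) : C := ∏ i ∈ A, v (s i)

/-- `s` is good for the coefficient space `U` and the target `V` -/
def Good {σ ι : Type*} [Fintype σ] (U V : Submodule κ C) (v : ι → C) (s : σ → ι) : Prop :=
  (∀ u : Finset σ → C, (∀ A, u A ∈ U) → ∑ A, u A * mon v s A ∈ V →
    (∀ A, 2 ≤ A.card → u A = 0) ∧ ∀ i, u {i} ∈ (1 : Submodule κ C)) ∧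
  ∀ q : σ → κ, ∑ i, algebraMap κ C (q i) * v (s i) ∈ U → q = 0

/-- add one entry to a tuple -/
def ext {σ ι : Type*} (s : σ → ι) (j : ι) : Option σ → ι := fun o => o.elim j s

@[simp] theorem ext_none {σ ι : Type*} (s : σ → ι) (j : ι) : ext s j none = j := rfl
@[simp] theorem ext_some {σ ι : Type*} (s : σ → ι) (j : ι) (i : σ) : ext s j (some i) = s i := rfl

/-- sums over the subsets of `Option σ` -/
theorem sum_option {σ M : Type*} [Fintype σ] [DecidableEq σ] [AddCommMonoid M]
    (f : Finset (Option σ) → M) :
    ∑ A, f A = ∑ A : Finset σ, f (A.map Function.Embedding.some) +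
      ∑ A : Finset σ, f (insert none (A.map Function.Embedding.some)) := by
  have h0 : (Finset.univ : Finset (Finset (Option σ))) =
      (insert none ((Finset.univ : Finset σ).map Function.Embedding.some)).powerset := by
    ext A
    simp only [mem_univ, Finset.mem_powerset, true_iff]
    intro o _
    rcases o with _ | i
    · exact Finset.mem_insert_self _ _
    · exact Finset.mem_insert_of_mem (Finset.mem_map_of_mem _ (Finset.mem_univ i))
  have hn : (none : Option σ) ∉ (Finset.univ : Finset σ).map Function.Embedding.some := by
    simp
  rw [h0, Finset.sum_powerset_insert hn]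
  have h1 : ∀ g : Finset (Option σ) → M,
      ∑ t ∈ ((Finset.univ : Finset σ).map Function.Embedding.some).powerset, g t =
      ∑ A : Finset σ, g (A.map Function.Embedding.some) := by
    intro g
    refine Finset.sum_nbij' (fun t => Finset.eraseNone t)
      (fun A => A.map Function.Embedding.some) ?_ ?_ ?_ ?_ ?_
    · intro t _; exact Finset.mem_univ _
    · intro A _
      rw [Finset.mem_powerset]
      exact Finset.map_subset_map.mpr (Finset.subset_univ A)
    · intro t ht
      rw [Finset.mem_powerset] at ht
      have : none ∉ t := fun h => hn (ht h)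
      rw [Finset.map_some_eraseNone, Finset.erase_eq_of_notMem this]
    · intro A _
      exact Finset.eraseNone_map_some A
    · intro t ht
      rw [Finset.mem_powerset] at ht
      have : none ∉ t := fun h => hn (ht h)
      rw [Finset.map_some_eraseNone, Finset.erase_eq_of_notMem this]
  rw [h1, h1]

theorem mon_map_some {σ ι : Type*} (v : ι → C) (s : σ → ι) (j : ι) (A : Finset σ) :
    mon v (ext s j) (A.map Function.Embedding.some) = mon v s A := by
  unfold mon
  rw [Finset.prod_map]
  rfl

theorem mon_insert_none {σ ι : Type*} [DecidableEq σ] (v : ι → C) (s : σ → ι) (j : ι)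
    (A : Finset σ) :
    mon v (ext s j) (insert none (A.map Function.Embedding.some)) = v j * mon v s A := by
  unfold mon
  rw [Finset.prod_insert (by simp), Finset.prod_map]
  rfl

/-- the space spanned by the monomials -/
noncomputable def Phi {σ ι : Type*} [Fintype σ] (U : Submodule κ C) (v : ι → C) (s : σ → ι) :
    (Finset σ → U) →ₗ[κ] C where
  toFun u := ∑ A, (u A : C) * mon v s A
  map_add' u u' := by
    simp only [Pi.add_apply, Submodule.coe_add, add_mul, Finset.sum_add_distrib]
  map_smul' c u := by
    simp only [Pi.smul_apply, Submodule.coe_smul, smul_mul_assoc, RingHom.id_apply, Finset.smul_sum]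

theorem Phi_mem {σ ι : Type*} [Fintype σ] {U : Submodule κ C} (v : ι → C) (s : σ → ι)
    (u : Finset σ → C) (hu : ∀ A, u A ∈ U) : ∑ A, u A * mon v s A ∈ LinearMap.range (Phi U v s) :=
  ⟨fun A => ⟨u A, hu A⟩, rfl⟩

theorem finrank_Phi {σ ι : Type*} [Fintype σ] (U : Submodule κ C) [FiniteDimensional κ U]
    (v : ι → C) (s : σ → ι) :
    finrank κ (LinearMap.range (Phi U v s)) ≤ 2 ^ Fintype.card σ * finrank κ U := by
  have h1 := LinearMap.finrank_range_le (Phi U v s)
  rw [Module.finrank_pi_fintype] at h1
  simpa using h1

theorem sum_ind {ι : Type*} [Fintype ι] [DecidableEq ι] {v : ι → C} (hli : Ind1 κ v) :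
    LinearIndependent κ v := by
  rw [Fintype.linearIndependent_iff]
  intro c hc
  apply hli c 0
  rw [map_zero, zero_add, ← hc]
  apply Finset.sum_congr rfl
  intro i _
  rw [Algebra.smul_def]

/-- members of an independent family in a space of small dimension -/
theorem card_mem_le {ι : Type*} [Fintype ι] [DecidableEq ι] {v : ι → C}
    (hli : LinearIndependent κ v) (Y : Submodule κ C) [FiniteDimensional κ Y] (J : Finset ι)
    (hJ : ∀ j ∈ J, v j ∈ Y) : J.card ≤ finrank κ Y := by
  have h1 : LinearIndependent κ (fun j : J => (⟨v j, hJ j j.2⟩ : Y)) := by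
    apply LinearIndependent.of_comp (Submodule.subtype Y)
    exact hli.comp (fun j : J => (j : ι)) Subtype.val_injective
  have := h1.fintype_card_le_finrank
  simpa using this

/-- the step -/
theorem step {L : Submodule κ C} (hyp : Hyp L) (h1 : (1 : C) ∈ L) {σ ι : Type*} [Fintype σ]
    [DecidableEq σ] [Fintype ι] [DecidableEq ι]
    (v : ι → C) (hv : ∀ i, v i ∈ L) (hli : Ind1 κ v) (U G : Submodule κ C)
    [FiniteDimensional κ U] [FiniteDimensional κ G] (hU : (1 : C) ∈ U) (s : σ → ι)
    (hs : Good U (L ⊔ G) v s) (N g : ℕ) (hN : finrank κ U ≤ N) (hg : finrank κ G ≤ g)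
    (J : Finset ι) (hJ : ∀ j ∈ J, ¬ Good U (L ⊔ G) v (ext s j)) :
    J.card ≤ N + Fintype.card σ + (2 ^ Fintype.card σ * N + g) * (2 ^ Fintype.card σ * N + g - 1) := by
  classical
  set V := L ⊔ G with hV
  have hLV : L ≤ V := le_sup_left
  let Y : Submodule κ C := U ⊔ Submodule.span κ (Set.range fun i => v (s i))
  have hSf : FiniteDimensional κ (Submodule.span κ (Set.range fun i => v (s i))) :=
    FiniteDimensional.span_of_finite κ (Set.finite_range _)
  have hYf : FiniteDimensional κ Y := by infer_instance
  let J₁ := J.filter (fun j => v j ∈ Y)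
  let J₂ := J.filter (fun j => v j ∉ Y)
  have hJ12 : J.card = J₁.card + J₂.card := (Finset.card_filter_add_card_filter_not _).symm
  have hJ₁ : J₁.card ≤ N + Fintype.card σ := by
    refine (card_mem_le (sum_ind hli) Y J₁ (fun j hj => (Finset.mem_filter.mp hj).2)).trans ?_
    have h2 : finrank κ (Submodule.span κ (Set.range fun i => v (s i))) ≤ Fintype.card σ :=
      (finrank_range_le_card _)
    have h3 : finrank κ Y ≤ finrank κ U +
        finrank κ (Submodule.span κ (Set.range fun i => v (s i))) :=
      Submodule.finrank_add_le_finrank_add_finrank U _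
    omega
  have hJ₂ : J₂.card ≤ (2 ^ Fintype.card σ * N + g) * (2 ^ Fintype.card σ * N + g - 1) := by
    -- relations
    have hrel : ∀ j ∈ J₂, ∃ u : Finset (Option σ) → C, (∀ A, u A ∈ U) ∧
        ∑ A, u A * mon v (ext s j) A ∈ V ∧
        ¬ ((∀ A, 2 ≤ A.card → u A = 0) ∧ ∀ i, u {i} ∈ (1 : Submodule κ C)) := by
      intro j hj
      have hj1 := (Finset.mem_filter.mp hj).1
      have hj2 := (Finset.mem_filter.mp hj).2
      by_contra hcon
      push Not at hcon
      apply hJ j hj1
      refine ⟨fun u hu hsum => by
        have := hcon u hu hsum
        exact this, ?_⟩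
      intro q hq
      rw [Fintype.sum_option] at hq
      simp only [ext_none, ext_some] at hq
      have hq0 : q none = 0 := by
        by_contra hne
        apply hj2
        have h3 : v j = algebraMap κ C (q none)⁻¹ * ((algebraMap κ C (q none) * v j +
            ∑ i, algebraMap κ C (q (some i)) * v (s i)) -
            ∑ i, algebraMap κ C (q (some i)) * v (s i)) := by
          rw [add_sub_cancel_right, ← mul_assoc, ← map_mul, inv_mul_cancel₀ hne, map_one, one_mul]
        rw [h3, ← Algebra.smul_def]
        refine Y.smul_mem _ (Y.sub_mem (Submodule.mem_sup_left hq) (Submodule.mem_sup_right ?_))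
        apply Submodule.sum_mem
        intro i _
        rw [← Algebra.smul_def]
        exact Submodule.smul_mem _ _ (Submodule.subset_span ⟨i, rfl⟩)
      rw [hq0, map_zero, zero_mul, zero_add] at hq
      have h4 := hs.2 (fun i => q (some i)) hq
      funext o
      rcases o with _ | i
      · exact hq0
      · exact congrFun h4 i
    choose! u hu1 hu2 hu3 using hrel
    -- decomposition of the value
    have hdec : ∀ j ∈ J₂, ∃ ℓ ∈ L, ∃ γ ∈ G, ℓ + γ = ∑ A, u j A * mon v (ext s j) A :=
      fun j hj => Submodule.mem_sup.mp (hu2 j hj)
    choose! ℓ hℓ γ hγ hsum using hdec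
    let X : Submodule κ C := LinearMap.range (Phi U v s) ⊔ G
    have hXf : FiniteDimensional κ X := by infer_instance
    have hX : finrank κ X ≤ 2 ^ Fintype.card σ * N + g := by
      have h2 : finrank κ X ≤ finrank κ (LinearMap.range (Phi U v s)) + finrank κ G :=
        Submodule.finrank_add_le_finrank_add_finrank (LinearMap.range (Phi U v s)) G
      have h3 := finrank_Phi U v s
      have h4 : 2 ^ Fintype.card σ * finrank κ U ≤ 2 ^ Fintype.card σ * N :=
        Nat.mul_le_mul_left _ hN
      omega
    have hUX : U ≤ X := by
      intro w hw
      apply Submodule.mem_sup_left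
      refine ⟨fun A => if A = ∅ then ⟨w, hw⟩ else 0, ?_⟩
      change ∑ A, (((if A = ∅ then (⟨w, hw⟩ : U) else 0 : U)) : C) * mon v s A = w
      rw [Finset.sum_eq_single ∅]
      · simp [mon]
      · intro A _ hA
        rw [if_neg hA]; simp
      · intro hh; exact absurd (Finset.mem_univ _) hh
    let z : ι → C := fun j => ∑ A : Finset σ, u j (insert none (A.map Function.Embedding.some)) * mon v s A
    let r : ι → C := fun j => ∑ A : Finset σ, u j (A.map Function.Embedding.some) * mon v s A
    have hzr : ∀ j, ∑ A, u j A * mon v (ext s j) A = r j + z j * v j := by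
      intro j
      rw [sum_option]
      simp only [mon_map_some, mon_insert_none, z, r, Finset.sum_mul]
      congr 1
      apply Finset.sum_congr rfl
      intro A _
      ring
    have hzX : ∀ j ∈ J₂, z j ∈ X := fun j hj =>
      Submodule.mem_sup_left (Phi_mem v s _ (fun A => hu1 j hj _))
    have hrX : ∀ j ∈ J₂, r j ∈ X := fun j hj =>
      Submodule.mem_sup_left (Phi_mem v s _ (fun A => hu1 j hj _))
    have hz1 : ∀ j ∈ J₂, z j ∉ (1 : Submodule κ C) := by
      intro j hj hz
      have hone : (1 : Submodule κ C) ≤ V := (Submodule.one_le.mpr h1).trans hLV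
      have hone' : (1 : Submodule κ C) ≤ U := Submodule.one_le.mpr hU
      obtain ⟨e1, e2⟩ := hs.1 (fun A => u j (insert none (A.map Function.Embedding.some)))
        (fun A => hu1 j hj _) (hone hz)
      -- the singletons
      choose q hq using fun i => Submodule.mem_one.mp (e2 i)
      have e3 : z j = u j {none} + ∑ i, algebraMap κ C (q i) * v (s i) := by
        have h2 : z j = ∑ A : Finset σ, if A.card ≤ 1 then
            u j (insert none (A.map Function.Embedding.some)) * mon v s A else 0 := by
          apply Finset.sum_congr rfl
          intro A _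
          split_ifs with hA
          · rfl
          · rw [e1 A (by omega), zero_mul]
        rw [h2, ← Finset.sum_filter]
        have h3 : (Finset.univ : Finset (Finset σ)).filter (fun A => A.card ≤ 1) =
            insert ∅ ((Finset.univ : Finset σ).image (fun i => {i})) := by
          ext A
          simp only [Finset.mem_filter, Finset.mem_univ, true_and, Finset.mem_insert,
            Finset.mem_image]
          constructor
          · intro hA
            rcases Nat.lt_or_ge A.card 1 with h4 | h4
            · left; exact Finset.card_eq_zero.mp (by omega)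
            · right
              obtain ⟨i, hi⟩ := Finset.card_eq_one.mp (le_antisymm hA h4)
              exact ⟨i, hi.symm⟩
          · rintro (rfl | ⟨i, rfl⟩)
            · simp
            · simp
        rw [h3, Finset.sum_insert (by simp), Finset.sum_image (fun i _ i' _ h => by simpa using h)]
        congr 1
        · simp [mon]
        · apply Finset.sum_congr rfl
          intro i _
          rw [hq i]
          simp [mon]
      have e4 : q = 0 := by
        apply hs.2
        have : ∑ i, algebraMap κ C (q i) * v (s i) = z j - u j {none} := by rw [e3]; ring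
        rw [this]
        exact U.sub_mem (hone' hz) (hu1 j hj _)
      have e5 : z j = u j {none} := by
        rw [e3, e4]; simp
      have e6 : r j ∈ V := by
        have h2 := hu2 j hj
        rw [hzr] at h2
        have h3 : z j * v j ∈ V := by
          obtain ⟨c, hc⟩ := Submodule.mem_one.mp hz
          rw [← hc, ← Algebra.smul_def]
          exact V.smul_mem _ (hLV (hv j))
        have := V.sub_mem h2 h3
        rwa [add_sub_cancel_right] at this
      obtain ⟨e7, e8⟩ := hs.1 (fun A => u j (A.map Function.Embedding.some))
        (fun A => hu1 j hj _) e6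
      apply hu3 j hj
      constructor
      · intro A hA
        by_cases hn : none ∈ A
        · have hA' : A = insert none ((Finset.eraseNone A).map Function.Embedding.some) := by
            rw [Finset.map_some_eraseNone, Finset.insert_erase hn]
          rcases Nat.lt_or_ge (Finset.eraseNone A).card 2 with h2 | h2
          · have h3 : (Finset.eraseNone A).card = 1 := by
              have h4 : A.card = (Finset.eraseNone A).card + 1 := by
                conv_lhs => rw [hA']
                rw [Finset.card_insert_of_notMem (by simp), Finset.card_map]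
              omega
            obtain ⟨i, hi⟩ := Finset.card_eq_one.mp h3
            have h5 := hq i
            rw [e4] at h5
            rw [hA', hi, ← h5]
            simp
          · rw [hA']; exact e1 _ h2
        · have hA' : A = (Finset.eraseNone A).map Function.Embedding.some := by
            rw [Finset.map_some_eraseNone, Finset.erase_eq_of_notMem hn]
          have h2 : 2 ≤ (Finset.eraseNone A).card := by
            rw [hA', Finset.card_map] at hA
            exact hA
          rw [hA']; exact e7 _ h2
      · intro i
        rcases i with _ | i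
        · rw [← e5]; exact hz
        · have := e8 i
          simpa using this
    have hfin := key hyp h1 v hv hli X (hUX hU) J₂ z (fun j => r j - γ j) hzX hz1
      (fun j hj => X.sub_mem (hrX j hj) (Submodule.mem_sup_right (hγ j hj)))
      (by
        intro j hj
        have h2 : z j * v j + (r j - γ j) = ℓ j := by
          have h3 := hsum j hj
          rw [hzr] at h3
          linear_combination -h3
        rw [h2]
        exact hℓ j hj)
    exact hfin.trans (Nat.mul_le_mul hX (Nat.sub_le_sub_right hX 1))
  omega

end Pool.Agent.TH812.SF
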