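import Mathlib

/-!
# Squarefree relations: the key lemma

Abstract setting: a field extension `C / κ`, a subspace `L` of `C` containing `1` (the linear forms
in logarithms) with the property `Hyp` of the hyperplane theorem.
-/

set_option autoImplicit false

namespace Pool.Agent.TH812.SF

open Module Finset

variable {κ C : Type*} [Field κ] [Field C] [Algebra κ C]

/-- the conclusion of the hyperplane case of the linear subgroup theorem -/
def Hyp (L : Submodule κ C) : Prop :=
  ∀ (d l : ℕ) (x : Fin d → C) (a : Fin d → Fin l → C), LinearIndependent κ x →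
    (∀ i j, a i j ∈ L) → (∀ j, ∑ i, x i * a i j = 0) →
    LinearIndependent κ (fun j i => a i j) → l ≤ d * (d - 1)

/-- `1` and the family `v` are linearly independent -/
def Ind1 (κ : Type*) {C : Type*} [Field κ] [Field C] [Algebra κ C] {ι : Type*} [Fintype ι]
    (v : ι → C) : Prop :=
  ∀ (c : ι → κ) (c₀ : κ), algebraMap κ C c₀ + ∑ i, algebraMap κ C (c i) * v i = 0 → ∀ i, c i = 0

/-- the key lemma -/
theorem key {L : Submodule κ C} (hyp : Hyp L) (h1 : (1 : C) ∈ L) {ι : Type*} [Fintype ι]
    [DecidableEq ι]
    (v : ι → C) (hv : ∀ i, v i ∈ L) (hli : Ind1 κ v) (X : Submodule κ C)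
    [FiniteDimensional κ X] (hX1 : (1 : C) ∈ X) (J : Finset ι) (z b : ι → C)
    (hz : ∀ j ∈ J, z j ∈ X) (hz' : ∀ j ∈ J, z j ∉ (1 : Submodule κ C)) (hb : ∀ j ∈ J, b j ∈ X)
    (h : ∀ j ∈ J, z j * v j + b j ∈ L) : J.card ≤ finrank κ X * (finrank κ X - 1) := by
  classical
  set d := finrank κ X with hd
  let B : Basis (Fin d) κ X := Module.finBasis κ X
  let f : Fin J.card → J := fun t => J.equivFin.symm t
  have hf : Function.Injective f := J.equivFin.symm.injective
  let zX : J → X := fun j => ⟨z j, hz j j.2⟩
  let bX : J → X := fun j => ⟨b j, hb j j.2⟩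
  let oX : X := ⟨1, hX1⟩
  have hsum : ∀ w : X, ∑ i, ((B i : X) : C) * algebraMap κ C (B.repr w i) = (w : C) := by
    intro w
    have h2 := congrArg (Submodule.subtype X) (B.sum_repr w)
    rw [map_sum] at h2
    simp only [map_smul, Submodule.subtype_apply] at h2
    rw [← h2]
    apply Finset.sum_congr rfl
    intro i _
    rw [Algebra.smul_def, mul_comm]
  refine hyp d J.card (fun i => ((B i : X) : C))
    (fun i t => algebraMap κ C (B.repr (zX (f t)) i) * v (f t) +
      algebraMap κ C (B.repr (bX (f t)) i) -
      algebraMap κ C (B.repr oX i) * (z (f t) * v (f t) + b (f t))) ?_ ?_ ?_ ?_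
  · exact B.linearIndependent.map' (Submodule.subtype X) (Submodule.ker_subtype X)
  · intro i t
    refine L.sub_mem (L.add_mem ?_ ?_) ?_
    · rw [← Algebra.smul_def]; exact L.smul_mem _ (hv _)
    · rw [Algebra.algebraMap_eq_smul_one]; exact L.smul_mem _ h1
    · rw [← Algebra.smul_def]; exact L.smul_mem _ (h _ (f t).2)
  · intro t
    have e1 := hsum (zX (f t))
    have e2 := hsum (bX (f t))
    have e3 := hsum oX
    simp only [mul_sub, mul_add, Finset.sum_sub_distrib, Finset.sum_add_distrib, ← mul_assoc,
      ← Finset.sum_mul]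
    rw [e1, e2, e3]
    simp only [zX, bX, oX]
    ring
  · rw [Fintype.linearIndependent_iff]
    intro c hc t₀
    by_contra hct
    -- the coordinates
    have hc' : ∀ i, ∑ t, algebraMap κ C (c t) * (algebraMap κ C (B.repr (zX (f t)) i) * v (f t) +
      algebraMap κ C (B.repr (bX (f t)) i) -
      algebraMap κ C (B.repr oX i) * (z (f t) * v (f t) + b (f t))) = 0 := by
      intro i
      have h2 := congrFun hc i
      rw [Finset.sum_apply, Pi.zero_apply] at h2
      rw [← h2]
      apply Finset.sum_congr rfl
      intro t _
      rw [Pi.smul_apply, Algebra.smul_def]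
    obtain ⟨i₀, hi₀⟩ : ∃ i₀, B.repr oX i₀ ≠ 0 := by
      by_contra hcon
      push Not at hcon
      have h2 := hsum oX
      simp only [hcon, map_zero, mul_zero, Finset.sum_const_zero] at h2
      exact zero_ne_one h2
    -- proportionality
    have hprop : ∀ i t, c t * (B.repr oX i₀ * B.repr (zX (f t)) i -
        B.repr oX i * B.repr (zX (f t)) i₀) = 0 := by
      intro i
      have h2 := hc' i
      have h3 := hc' i₀
      -- combine
      have h4 : algebraMap κ C (∑ t, c t * (B.repr oX i₀ * B.repr (bX (f t)) i -
          B.repr oX i * B.repr (bX (f t)) i₀)) +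
          ∑ j : ι, algebraMap κ C (∑ t, if (f t : ι) = j then c t * (B.repr oX i₀ * B.repr (zX (f t)) i -
          B.repr oX i * B.repr (zX (f t)) i₀) else 0) * v j = 0 := by
        have h5 : ∑ j : ι, algebraMap κ C (∑ t, if (f t : ι) = j then
            c t * (B.repr oX i₀ * B.repr (zX (f t)) i -
            B.repr oX i * B.repr (zX (f t)) i₀) else 0) * v j =
            ∑ t, algebraMap κ C (c t * (B.repr oX i₀ * B.repr (zX (f t)) i -
            B.repr oX i * B.repr (zX (f t)) i₀)) * v (f t) := by
          simp only [map_sum, Finset.sum_mul]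
          rw [Finset.sum_comm]
          apply Finset.sum_congr rfl
          intro t _
          rw [Finset.sum_eq_single (f t : ι)]
          · rw [if_pos rfl]
          · intro j _ hj
            rw [if_neg (fun hh => hj hh.symm), map_zero, zero_mul]
          · intro hh; exact absurd (Finset.mem_univ _) hh
        rw [h5, map_sum, ← Finset.sum_add_distrib]
        have h6 : ∑ t, (algebraMap κ C (c t * (B.repr oX i₀ * B.repr (bX (f t)) i -
            B.repr oX i * B.repr (bX (f t)) i₀)) + algebraMap κ C (c t * (B.repr oX i₀ *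
            B.repr (zX (f t)) i - B.repr oX i * B.repr (zX (f t)) i₀)) * v (f t)) =
            algebraMap κ C (B.repr oX i₀) * (∑ t, algebraMap κ C (c t) *
              (algebraMap κ C (B.repr (zX (f t)) i) * v (f t) +
              algebraMap κ C (B.repr (bX (f t)) i) -
              algebraMap κ C (B.repr oX i) * (z (f t) * v (f t) + b (f t)))) -
            algebraMap κ C (B.repr oX i) * (∑ t, algebraMap κ C (c t) *
              (algebraMap κ C (B.repr (zX (f t)) i₀) * v (f t) +
              algebraMap κ C (B.repr (bX (f t)) i₀) -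
              algebraMap κ C (B.repr oX i₀) * (z (f t) * v (f t) + b (f t)))) := by
          rw [Finset.mul_sum, Finset.mul_sum, ← Finset.sum_sub_distrib]
          apply Finset.sum_congr rfl
          intro t _
          simp only [map_mul, map_sub]
          ring
        rw [h6, h2, h3]
        ring
      intro t
      have h7 := hli _ _ h4 (f t)
      rw [Finset.sum_eq_single t] at h7
      · rwa [if_pos rfl] at h7
      · intro t' _ ht'
        rw [if_neg]
        intro hh
        exact ht' (hf (Subtype.ext hh))
      · intro hh; exact absurd (Finset.mem_univ _) hh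
    apply hz' (f t₀) (f t₀).2
    -- `z` is a multiple of `1`
    have h8 : ∀ i, B.repr (zX (f t₀)) i = (B.repr (zX (f t₀)) i₀ / B.repr oX i₀) * B.repr oX i := by
      intro i
      have h9 := (mul_eq_zero.mp (hprop i t₀)).resolve_left hct
      field_simp
      linear_combination h9
    rw [Submodule.mem_one]
    refine ⟨B.repr (zX (f t₀)) i₀ / B.repr oX i₀, ?_⟩
    have h10 := hsum (zX (f t₀))
    have h11 := hsum oX
    have h12 : ((zX (f t₀) : X) : C) = z (f t₀) := rfl
    rw [← h12, ← h10]
    have h13 : ((oX : X) : C) = 1 := rfl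
    rw [h13] at h11
    calc algebraMap κ C (B.repr (zX (f t₀)) i₀ / B.repr oX i₀)
        = algebraMap κ C (B.repr (zX (f t₀)) i₀ / B.repr oX i₀) *
          ∑ i, ((B i : X) : C) * algebraMap κ C (B.repr oX i) := by rw [h11, mul_one]
      _ = ∑ i, ((B i : X) : C) * algebraMap κ C (B.repr (zX (f t₀)) i) := by
          rw [Finset.mul_sum]
          apply Finset.sum_congr rfl
          intro i _
          conv_rhs => rw [h8 i]
          rw [map_mul]
          ring

end Pool.Agent.TH812.SF
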