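import Pool.Agent.TH812.SF.All

/-!
# Relations with squarefree mixed monomials and arbitrary pure powers: polynomials
-/

set_option autoImplicit false

namespace Pool.Agent.TH812.SF

open Module Finset

variable {κ C : Type} [Field κ] [Field C] [Algebra κ C]

/-- the exponents of a monomial which is squarefree or a pure power of degree at most `D` -/
def Allowed (D : ℕ) {k : ℕ} (m : Fin k →₀ ℕ) : Prop :=
  (∀ i, m i ≤ 1) ∨ ∃ i b, b ≤ D ∧ m = Finsupp.single i b

/-- exponents -/
noncomputable def ex (k E : ℕ) : Finset (Fin k) ⊕ (Fin k × Fin E) → (Fin k →₀ ℕ) :=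
  Sum.elim (fun A => Finsupp.indicator A fun _ _ => 1) (fun p => Finsupp.single p.1 ((p.2 : ℕ) + 2))

theorem ex_inl_apply (k E : ℕ) (A : Finset (Fin k)) (i : Fin k) :
    ex k E (Sum.inl A) i = if i ∈ A then 1 else 0 := by
  classical
  simp only [ex, Sum.elim_inl]
  rw [Finsupp.indicator_apply]
  by_cases h : i ∈ A
  · simp [h]
  · simp [h]

theorem ex_inr (k E : ℕ) (i : Fin k) (b : Fin E) :
    ex k E (Sum.inr (i, b)) = Finsupp.single i ((b : ℕ) + 2) := rfl

theorem ex_injective (k E : ℕ) : Function.Injective (ex k E) := by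
  classical
  have hA : ∀ (A : Finset (Fin k)) (i : Fin k) (b : Fin E),
      ex k E (Sum.inl A) ≠ ex k E (Sum.inr (i, b)) := by
    intro A i b h
    have h1 := DFunLike.congr_fun h i
    rw [ex_inl_apply, ex_inr, Finsupp.single_eq_same] at h1
    split_ifs at h1 <;> omega
  rintro (A | ⟨i, b⟩) (B | ⟨j, c⟩) h
  · congr 1
    ext i
    have h1 := DFunLike.congr_fun h i
    rw [ex_inl_apply, ex_inl_apply] at h1
    by_cases hi : i ∈ A <;> by_cases hi' : i ∈ B <;> simp_all
  · exact absurd h (hA A j c)
  · exact absurd h.symm (hA B i b)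
  · rw [ex_inr, ex_inr] at h
    have h1 : i = j := by
      by_contra hij
      have h2 := DFunLike.congr_fun h i
      rw [Finsupp.single_eq_same, Finsupp.single_eq_of_ne hij] at h2
      omega
    subst h1
    have h2 := DFunLike.congr_fun h i
    rw [Finsupp.single_eq_same, Finsupp.single_eq_same] at h2
    have h3 : b = c := Fin.ext (by omega)
    rw [h3]

theorem exists_ex {k E : ℕ} {m : Fin k →₀ ℕ} (hm : Allowed (E + 1) m) : ∃ z, ex k E z = m := by
  classical
  by_cases h : ∀ i, m i ≤ 1
  · refine ⟨Sum.inl (Finset.univ.filter fun i => m i = 1), ?_⟩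
    ext i
    rw [ex_inl_apply]
    have := h i
    by_cases hi : m i = 1
    · simp [hi]
    · have h0 : m i = 0 := by omega
      simp [h0]
  · rcases hm with hm | ⟨i, b, hb, rfl⟩
    · exact absurd hm h
    · by_cases hb2 : b ≤ 1
      · exfalso
        apply h
        intro j
        by_cases hij : i = j
        · subst hij; rwa [Finsupp.single_eq_same]
        · rw [Finsupp.single_eq_of_ne (Ne.symm hij)]; omega
      · refine ⟨Sum.inr (i, ⟨b - 2, by omega⟩), ?_⟩
        rw [ex_inr]
        congr 1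
        show b - 2 + 2 = b
        omega

/-- a polynomial with a mixed monomial gives a relation at some place -/
theorem relAt_of_poly {ι : Type} {k E : ℕ} (U V : Submodule κ C) (v : ι → C) (s : Fin k → ι)
    (P : MvPolynomial (Fin k) C) (hU : ∀ m, P.coeff m ∈ U) (hP : ∀ m ∈ P.support, Allowed (E + 1) m)
    (hV : MvPolynomial.eval (fun i => v (s i)) P ∈ V) (hm : ∃ m ∈ P.support, 2 ≤ m.support.card) :
    ∃ i, RelAt U V E v s i := by
  classical
  obtain ⟨m, hm, hm2⟩ := hm
  obtain ⟨z, hz⟩ := exists_ex (hP m hm)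
  have hzA : ∃ A : Finset (Fin k), m = ex k E (Sum.inl A) := by
    rcases z with A | ⟨i, b⟩
    · exact ⟨A, hz.symm⟩
    · exfalso
      rw [ex_inr] at hz
      rw [← hz, Finsupp.support_single_ne_zero _ (by omega), Finset.card_singleton] at hm2
      omega
  obtain ⟨A, rfl⟩ := hzA
  have hsupp : (ex k E (Sum.inl A)).support = A := by
    ext i
    rw [Finsupp.mem_support_iff, ex_inl_apply]
    by_cases hi : i ∈ A <;> simp [hi]
  rw [hsupp] at hm2
  have hAne : A.Nonempty := Finset.card_pos.mp (by omega)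
  obtain ⟨i, hi⟩ := hAne
  refine ⟨i, fun A => P.coeff (ex k E (Sum.inl A)), fun i b => P.coeff (ex k E (Sum.inr (i, b))),
    fun A => hU _, fun i b => hU _, ?_, A, hi, hm2, MvPolynomial.mem_support_iff.mp hm⟩
  have h1 : MvPolynomial.eval (fun i => v (s i)) P = ∑ z : Finset (Fin k) ⊕ (Fin k × Fin E),
      P.coeff (ex k E z) * ∏ i, v (s i) ^ (ex k E z i) := by
    rw [MvPolynomial.eval_eq']
    have h2 : ∑ z : Finset (Fin k) ⊕ (Fin k × Fin E),
        P.coeff (ex k E z) * ∏ i, v (s i) ^ (ex k E z i) =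
        ∑ d ∈ Finset.univ.image (ex k E), P.coeff d * ∏ i, v (s i) ^ (d i) := by
      rw [Finset.sum_image fun a _ b _ h => ex_injective k E h]
    rw [h2]
    apply Finset.sum_subset
    · intro d hd
      obtain ⟨z, hz⟩ := exists_ex (hP d hd)
      rw [Finset.mem_image]
      exact ⟨z, Finset.mem_univ _, hz⟩
    · intro d _ hd
      rw [MvPolynomial.notMem_support_iff] at hd
      rw [hd, zero_mul]
  rw [h1, Fintype.sum_sum_type, Fintype.sum_prod_type] at hV
  have h3 : ∀ A : Finset (Fin k), ∏ i, v (s i) ^ (ex k E (Sum.inl A) i) = mon v s A := by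
    intro A
    unfold mon
    simp only [ex_inl_apply]
    rw [← Finset.prod_subset (Finset.subset_univ A)]
    · refine Finset.prod_congr rfl fun i hi => ?_
      rw [if_pos hi, pow_one]
    · intro i _ hi
      rw [if_neg hi, pow_zero]
  have h4 : ∀ (j : Fin k) (b : Fin E), ∏ i, v (s i) ^ (ex k E (Sum.inr (j, b)) i) =
      v (s j) ^ ((b : ℕ) + 2) := by
    intro j b
    rw [Finset.prod_eq_single j]
    · rw [ex_inr, Finsupp.single_eq_same]
    · intro i _ hij
      rw [ex_inr, Finsupp.single_eq_of_ne hij, pow_zero]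
    · intro h; exact absurd (Finset.mem_univ _) h
  simp only [h3, h4] at hV
  exact hV

end Pool.Agent.TH812.SF
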